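import Pool.Agent.Lib.MP_1e0d46_al.TD

namespace Pool.Agent.Lib.MP_1e0d46_al.TD

open Module

variable {K V : Type*} [Field K] [AddCommGroup V] [Module K V]
variable {A B : End K V} {d : ℕ} {θ φ : ℕ → K}

/-- `L_k = (B - φ_{d-k+1}) ⋯ (B - φ_d) v` -/
def Lseq (B : End K V) (d : ℕ) (φ : ℕ → K) (v : V) : ℕ → V
  | 0 => v
  | k + 1 => (B - φ (d - k) • (1 : End K V)) (Lseq B d φ v k)

theorem Lseq_mem (h : TDPair A B d θ φ) {v : V} (hv : v ∈ Tl A d θ d) :
    ∀ k ≤ d, Lseq B d φ v k ∈ Hd B d φ (d + 1 - k) ∧ Lseq B d φ v k ∈ Tl A d θ (d - k) := by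
  intro k
  induction k with
  | zero =>
    intro _
    refine ⟨?_, hv⟩
    have h1 : Hd B d φ (d + 1 - 0) = ⊤ := by
      refine top_le_iff.mp ?_
      rw [← h.topB]
      exact esum_mono (s := {j | j ≤ d}) (t := {k | k < d + 1 - 0 ∧ k ≤ d})
        (fun j hj => ⟨Nat.lt_succ_of_le hj, hj⟩)
    rw [h1]
    exact Submodule.mem_top
  | succ k ih =>
    intro hk
    obtain ⟨h1, h2⟩ := ih (by omega)
    refine ⟨?_, ?_⟩
    · have e : d + 1 - k = (d - k) + 1 := by omega
      rw [e] at h1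
      have h3 := Hd_sub (d - k) h1
      have e2 : d + 1 - (k + 1) = d - k := by omega
      rw [e2]
      exact h3
    · have e : d - k = (d - (k + 1)) + 1 := by omega
      have h2' : Lseq B d φ v k ∈ Tl A d θ ((d - (k + 1)) + 1) := by rw [← e]; exact h2
      have e2 : Lseq B d φ v (k + 1) = B (Lseq B d φ v k) - φ (d - k) • Lseq B d φ v k := by
        simp [Lseq]
      rw [e2]
      exact Submodule.sub_mem _ (Tl_tri h (Nat.le_succ _) h2' le_rfl)
        (Submodule.smul_mem _ _ (Tl_anti (Nat.le_succ _) h2'))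

theorem lemQ {s : Set ℕ} {m : ℕ} (hφ : ∀ j ∈ s, φ j ≠ φ m) {w : V}
    (hw : (B - φ m • (1 : End K V)) w ∈ ESum B φ s) : w ∈ ESum B φ (insert m s) := by
  have h1 : ESum B φ s ≤ (ESum B φ s).map (B - φ m • (1 : End K V)) := by
    refine esum_le ?_
    intro j hj v hv
    have hv' : B v = φ j • v := End.mem_eigenspace_iff.mp hv
    refine ⟨(φ j - φ m)⁻¹ • v, Submodule.smul_mem _ _ (mem_esum hj hv), ?_⟩
    have hne : φ j - φ m ≠ 0 := sub_ne_zero.mpr (hφ j hj)
    have e : (B - φ m • (1 : End K V)) v = (φ j - φ m) • v := by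
      simp [hv', sub_smul]
    rw [map_smul, e, smul_smul, inv_mul_cancel₀ hne, one_smul]
  obtain ⟨z, hz, hzw⟩ := h1 hw
  have h2 : w - z ∈ B.eigenspace (φ m) := by
    rw [End.mem_eigenspace_iff]
    have h3 : (B - φ m • (1 : End K V)) (w - z) = 0 := by
      rw [map_sub, hzw, sub_self]
    have h4 : B (w - z) - φ m • (w - z) = 0 := by
      simpa using h3
    exact sub_eq_zero.mp h4
  have e : w = (w - z) + z := by abel
  rw [e]
  exact Submodule.add_mem _ (mem_esum (Set.mem_insert m s) h2)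
    (esum_mono (Set.subset_insert m s) hz)

theorem Lseq_ne (h : TDPair A B d θ φ) {v : V} (hv : v ∈ Tl A d θ d) (hv0 : v ≠ 0) :
    ∀ k ≤ d, Lseq B d φ v k ≠ 0 := by
  intro k hk h0
  have key : ∀ i ≤ k, Lseq B d φ v (k - i) ∈
      ESum B φ {l | d + 1 - k ≤ l ∧ l < d + 1 - k + i} := by
    intro i
    induction i with
    | zero =>
      intro _
      rw [Nat.sub_zero, h0]
      exact Submodule.zero_mem _
    | succ i ih =>
      intro hi
      have h1 := ih (by omega)
      have e : k - i = (k - (i + 1)) + 1 := by omega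
      rw [e] at h1
      have e2 : Lseq B d φ v (k - (i + 1) + 1) =
        (B - φ (d - (k - (i + 1))) • (1 : End K V)) (Lseq B d φ v (k - (i + 1))) := rfl
      rw [e2] at h1
      have h2 := lemQ (s := {l | d + 1 - k ≤ l ∧ l < d + 1 - k + i}) (m := d - (k - (i + 1)))
        (fun j hj hj2 => by
          have h3 := h.injB j (by have := hj.2; omega) _ (by omega) hj2
          have := hj.2
          omega) h1
      refine esum_mono ?_ h2
      intro l hl
      rcases hl with hl | hl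
      · subst hl
        exact ⟨by omega, by omega⟩
      · exact ⟨hl.1, by have := hl.2; omega⟩
  have h1 := key k le_rfl
  rw [Nat.sub_self] at h1
  have h2 : v ∈ Tl B d φ (d + 1 - k) :=
    esum_mono (s := {l | d + 1 - k ≤ l ∧ l < d + 1 - k + k}) (t := {l | d + 1 - k ≤ l ∧ l ≤ d})
      (fun l hl => ⟨hl.1, by have := hl.2; omega⟩) h1
  have h3 : v ∈ Tl B d φ (d + 1 - k) ⊓ Tl A d θ d := ⟨h2, hv⟩
  rw [Tl_inf_Tl h (by omega)] at h3
  exact hv0 ((Submodule.mem_bot K).mp h3)

/-- the `q`-commutator `q⁻¹ A B - q B A` -/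
def qComm (A B : End K V) (q : K) : End K V := q⁻¹ • (A * B) - q • (B * A)

theorem qComm_map (h : TDPair A B d θ φ) (q : K) {i : ℕ} {u : V} (hu : u ∈ Tl A d θ (i + 1)) :
    ∃ t ∈ Tl A d θ (i + 1), qComm A B q u = (q⁻¹ * θ i - q * θ (i + 1)) • B u + t := by
  have h1 : B u ∈ Tl A d θ i := Tl_tri h (Nat.le_succ _) hu le_rfl
  have h2 := Tl_sub i h1
  have h3 := Tl_sub (i + 1) hu
  have h4 : B ((A - θ (i + 1) • (1 : End K V)) u) ∈ Tl A d θ (i + 1) :=
    Tl_tri h (Nat.le_succ _) h3 le_rfl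
  refine ⟨q⁻¹ • (A - θ i • (1 : End K V)) (B u) - q • B ((A - θ (i + 1) • (1 : End K V)) u),
    Submodule.sub_mem _ (Submodule.smul_mem _ _ h2) (Submodule.smul_mem _ _ h4), ?_⟩
  simp only [qComm, LinearMap.sub_apply, LinearMap.smul_apply, End.mul_apply, End.one_apply,
    map_sub, map_smul]
  module

theorem qComm_mem (h : TDPair A B d θ φ) (q : K) {i : ℕ} {u : V} (hu : u ∈ Tl A d θ (i + 1)) :
    qComm A B q u ∈ Tl A d θ i := by
  obtain ⟨t, ht, e⟩ := qComm_map h q hu
  rw [e]
  exact Submodule.add_mem _ (Submodule.smul_mem _ _ (Tl_tri h (Nat.le_succ _) hu le_rfl))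
    (Tl_anti (Nat.le_succ _) ht)

theorem pow_eq (h : TDPair A B d θ φ) {q : K} (hq : q ≠ 0)
    (hθ : ∀ i < d, θ i ≠ q ^ 2 * θ (i + 1)) {v : V} (hv : v ∈ Tl A d θ d) :
    ∀ k ≤ d, ∃ c : K, c ≠ 0 ∧
      ((qComm A B q) ^ k) v - c • Lseq B d φ v k ∈ Tl A d θ (d - k + 1) := by
  intro k
  induction k with
  | zero =>
    intro _
    refine ⟨1, one_ne_zero, ?_⟩
    simp [Lseq]
  | succ k ih =>
    intro hk
    obtain ⟨c, hc, h1⟩ := ih (by omega)
    have hL := (Lseq_mem h hv k (by omega)).2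
    obtain ⟨j, hj⟩ : ∃ j, d - k = j + 1 := ⟨d - k - 1, by omega⟩
    have hj2 : d - (k + 1) = j := by omega
    rw [hj] at h1 hL
    obtain ⟨t, ht, e⟩ := qComm_map h q hL
    have hne : q⁻¹ * θ j - q * θ (j + 1) ≠ 0 := by
      intro h0
      apply hθ j (by omega)
      have : q * (q⁻¹ * θ j - q * θ (j + 1)) = 0 := by rw [h0, mul_zero]
      field_simp at this
      linear_combination this
    refine ⟨c * (q⁻¹ * θ j - q * θ (j + 1)), mul_ne_zero hc hne, ?_⟩
    have h2 := qComm_mem h q h1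
    rw [map_sub, map_smul, e] at h2
    have e3 : Lseq B d φ v (k + 1) = B (Lseq B d φ v k) - φ (d - k) • Lseq B d φ v k := by
      simp [Lseq]
    rw [e3, pow_succ', End.mul_apply, hj2]
    have e4 : qComm A B q ((qComm A B q ^ k) v) -
        (c * (q⁻¹ * θ j - q * θ (j + 1))) • (B (Lseq B d φ v k) - φ (d - k) • Lseq B d φ v k) =
        (qComm A B q ((qComm A B q ^ k) v) -
          c • ((q⁻¹ * θ j - q * θ (j + 1)) • B (Lseq B d φ v k) + t)) +
        (c • t + (c * (q⁻¹ * θ j - q * θ (j + 1)) * φ (d - k)) • Lseq B d φ v k) := by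
      module
    rw [e4]
    exact Submodule.add_mem _ h2 (Submodule.add_mem _ (Submodule.smul_mem _ _ ht)
      (Submodule.smul_mem _ _ hL))

theorem pow_mem (h : TDPair A B d θ φ) (q : K) {v : V} (hv : v ∈ Tl A d θ d) :
    ∀ k ≤ d, ((qComm A B q) ^ k) v ∈ Tl A d θ (d - k) := by
  intro k
  induction k with
  | zero =>
    intro _
    simpa using hv
  | succ k ih =>
    intro hk
    have h1 := ih (by omega)
    have e : d - k = (d - (k + 1)) + 1 := by omega
    rw [e] at h1
    rw [pow_succ', End.mul_apply]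
    exact qComm_mem h q h1

theorem pow_not_mem (h : TDPair A B d θ φ) {q : K} (hq : q ≠ 0)
    (hθ : ∀ i < d, θ i ≠ q ^ 2 * θ (i + 1)) {v : V} (hv : v ∈ Tl A d θ d) (hv0 : v ≠ 0)
    {k : ℕ} (hk : k ≤ d) : ((qComm A B q) ^ k) v ∉ Tl A d θ (d - k + 1) := by
  intro h0
  obtain ⟨c, hc, h1⟩ := pow_eq h hq hθ hv k hk
  have h2 : c • Lseq B d φ v k ∈ Tl A d θ (d - k + 1) := by
    have := Submodule.sub_mem _ h0 h1
    rwa [sub_sub_cancel] at this
  have h3 : Lseq B d φ v k ∈ Tl A d θ (d - k + 1) := (Submodule.smul_mem_iff _ hc).mp h2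
  have h4 : Lseq B d φ v k ∈ Hd B d φ (d + 1 - k) ⊓ Tl A d θ (d - k + 1) :=
    ⟨(Lseq_mem h hv k hk).1, h3⟩
  rw [Hd_inf_Tl h (by omega)] at h4
  exact Lseq_ne h hv hv0 k hk ((Submodule.mem_bot K).mp h4)

theorem indep (h : TDPair A B d θ φ) {q : K} (hq : q ≠ 0)
    (hθ : ∀ i < d, θ i ≠ q ^ 2 * θ (i + 1)) {v : V} (hv : v ∈ Tl A d θ d) (hv0 : v ≠ 0) :
    LinearIndependent K (fun k : Fin (d + 1) => ((qComm A B q) ^ (k : ℕ)) v) := by
  classical
  rw [Fintype.linearIndependent_iff]
  intro g hg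
  by_contra hcon
  push Not at hcon
  obtain ⟨i0, hi0⟩ := hcon
  have hne : (Finset.univ.filter (fun i : Fin (d + 1) => g i ≠ 0)).Nonempty :=
    ⟨i0, by simp [hi0]⟩
  set i := (Finset.univ.filter (fun i : Fin (d + 1) => g i ≠ 0)).max' hne with hi
  have hgi : g i ≠ 0 := by
    have := Finset.max'_mem _ hne
    rw [← hi] at this
    simpa using this
  have hmax : ∀ j, g j ≠ 0 → j ≤ i := fun j hj => Finset.le_max' _ j (by simp [hj])
  have hid : (i : ℕ) ≤ d := Nat.lt_succ_iff.mp i.2
  apply pow_not_mem h hq hθ hv hv0 hid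
  rw [← Submodule.smul_mem_iff _ hgi]
  rw [← Finset.add_sum_erase _ _ (Finset.mem_univ i)] at hg
  rw [eq_neg_of_add_eq_zero_left hg]
  refine Submodule.neg_mem _ (Submodule.sum_mem _ ?_)
  intro j hj
  have hji : j ≠ i := (Finset.mem_erase.mp hj).1
  by_cases hgj : g j = 0
  · simp [hgj]
  · have hlt : j < i := lt_of_le_of_ne (hmax j hgj) hji
    have hlt' : (j : ℕ) < (i : ℕ) := hlt
    exact Submodule.smul_mem _ _ (Tl_anti (by omega) (pow_mem h q hv j (by omega)))

/-- conclusions from the independence of `v, X v, …, X^d v` -/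
theorem concl [FiniteDimensional K V] (X : End K V) {v : V}
    (hi : LinearIndependent K (fun k : Fin (d + 1) => (X ^ (k : ℕ)) v)) :
    d + 1 ≤ (minpoly K X).natDegree ∧
      ∀ μ : K, finrank K (X.eigenspace μ) + d ≤ finrank K V := by
  constructor
  · by_contra hlt
    have hlt' : (minpoly K X).natDegree < d + 1 := by omega
    have h0 : Polynomial.aeval X (minpoly K X) = 0 := minpoly.aeval K X
    rw [Polynomial.aeval_eq_sum_range' hlt'] at h0
    have h1 : ∑ k : Fin (d + 1), (minpoly K X).coeff k • (X ^ (k : ℕ)) v = 0 := by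
      have h2 := LinearMap.congr_fun h0 v
      rw [← Fin.sum_univ_eq_sum_range (fun k => (minpoly K X).coeff k • X ^ k)] at h2
      simpa using h2
    have h3 := (Fintype.linearIndependent_iff.mp hi) (fun k => (minpoly K X).coeff k) h1
      ⟨(minpoly K X).natDegree, hlt'⟩
    have h4 : (minpoly K X).leadingCoeff = 1 := minpoly.monic (Algebra.IsIntegral.isIntegral X)
    rw [Polynomial.leadingCoeff] at h4
    simp only at h3
    rw [h3] at h4
    exact zero_ne_one h4
  · intro μ
    have hmem : ∀ k : ℕ, (X ^ k) v ∈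
        LinearMap.range (X - μ • (1 : End K V)) ⊔ Submodule.span K {v} := by
      intro k
      induction k with
      | zero =>
        have e : (X ^ 0) v = v := by simp
        rw [e]
        exact Submodule.mem_sup_right (Submodule.mem_span_singleton_self v)
      | succ k ih =>
        have e : (X ^ (k + 1)) v = (X - μ • (1 : End K V)) ((X ^ k) v) + μ • (X ^ k) v := by
          rw [pow_succ']
          simp
        rw [e]
        exact Submodule.add_mem _
          ((le_sup_left : LinearMap.range (X - μ • (1 : End K V)) ≤ _) ⟨_, rfl⟩)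
          (Submodule.smul_mem _ _ ih)
    have h1 : finrank K (Submodule.span K
        (Set.range (fun k : Fin (d + 1) => (X ^ (k : ℕ)) v))) = d + 1 := by
      rw [finrank_span_eq_card hi, Fintype.card_fin]
    have h2 : Submodule.span K (Set.range (fun k : Fin (d + 1) => (X ^ (k : ℕ)) v)) ≤
        LinearMap.range (X - μ • (1 : End K V)) ⊔ Submodule.span K {v} := by
      rw [Submodule.span_le]
      rintro _ ⟨k, rfl⟩
      exact hmem k
    have h3 := Submodule.finrank_mono h2
    have h4 := Submodule.finrank_add_le_finrank_add_finrank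
      (LinearMap.range (X - μ • (1 : End K V))) (Submodule.span K {v})
    have h5 : finrank K (Submodule.span K ({v} : Set V)) ≤ 1 := by
      simpa using finrank_span_le_card (R := K) ({v} : Set V)
    have h6 := LinearMap.finrank_range_add_finrank_ker (X - μ • (1 : End K V))
    rw [End.eigenspace_def]
    omega

end Pool.Agent.Lib.MP_1e0d46_al.TD
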