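import Pool.Agent.Lib.MP_1e0d46_al.Defs
import Pool.Agent.Lib.MP_1e0d46_al.TD2

namespace Pool.Agent.Lib.MP_1e0d46_al.Bridge

open Module

variable {K V : Type*} [Field K] [AddCommGroup V] [Module K V]

theorem toTD {A B : End K V} {d : ℕ} {θ φ : ℕ → K}
    (h : Pool.Agent.Lib.MP_1e0d46_al.TDPair A B d θ φ) : TD.TDPair A B d θ φ where
  injA := h.left.inj
  injB := h.right.inj
  neA := h.left.ne
  neB := h.right.ne
  topA := by
    refine top_le_iff.mp ?_
    rw [← h.left.top]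
    exact seg_le (fun k _ hk => fun w hw => TD.mem_esum (s := {j | j ≤ d}) hk hw)
  topB := by
    refine top_le_iff.mp ?_
    rw [← h.right.top]
    exact seg_le (fun k _ hk => fun w hw => TD.mem_esum (s := {j | j ≤ d}) hk hw)
  triA := fun i hi v hv => by
    have h1 := h.left.tri i hi v hv
    have h2 : seg A θ (i - 1) (min (i + 1) d) ≤
        TD.ESum A θ {j | j ≤ d ∧ j ≤ i + 1 ∧ i ≤ j + 1} :=
      seg_le (fun k hk hk' => fun w hw =>
        TD.mem_esum (s := {j | j ≤ d ∧ j ≤ i + 1 ∧ i ≤ j + 1})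
          ⟨by omega, by omega, by omega⟩ hw)
    exact h2 h1
  triB := fun i hi v hv => by
    have h1 := h.right.tri i hi v hv
    have h2 : seg B φ (i - 1) (min (i + 1) d) ≤
        TD.ESum B φ {j | j ≤ d ∧ j ≤ i + 1 ∧ i ≤ j + 1} :=
      seg_le (fun k hk hk' => fun w hw =>
        TD.mem_esum (s := {j | j ≤ d ∧ j ≤ i + 1 ∧ i ≤ j + 1})
          ⟨by omega, by omega, by omega⟩ hw)
    exact h2 h1
  irr := h.irr

theorem esum_reindex {A : End K V} {θ θ' : ℕ → K} {s t : Set ℕ}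
    (h : ∀ j ∈ s, ∃ k ∈ t, θ' k = θ j) : TD.ESum A θ s ≤ TD.ESum A θ' t := by
  refine TD.esum_le ?_
  intro j hj v hv
  obtain ⟨k, hk, e⟩ := h j hj
  rw [← e] at hv
  exact TD.mem_esum hk hv

theorem reverse {A B : End K V} {d : ℕ} {θ φ : ℕ → K} (h : TD.TDPair A B d θ φ) :
    TD.TDPair A B d (fun i => θ (d - i)) φ where
  injA := fun i hi j hj e => by
    have := h.injA (d - i) (Nat.sub_le _ _) (d - j) (Nat.sub_le _ _) e
    omega
  injB := h.injB
  neA := fun i _ => h.neA (d - i) (Nat.sub_le _ _)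
  neB := h.neB
  topA := by
    refine top_le_iff.mp ?_
    rw [← h.topA]
    refine esum_reindex ?_
    intro j hj
    have hj' : j ≤ d := hj
    refine ⟨d - j, Nat.sub_le _ _, ?_⟩
    have : d - (d - j) = j := by omega
    simp only [this]
  topB := h.topB
  triA := fun i hi v hv => by
    have h1 := h.triA (d - i) (Nat.sub_le _ _) v hv
    refine esum_reindex (s := {j | j ≤ d ∧ j ≤ (d - i) + 1 ∧ (d - i) ≤ j + 1}) ?_ h1
    intro j hj
    obtain ⟨hj1, hj2, hj3⟩ := hj
    refine ⟨d - j, ⟨Nat.sub_le _ _, by omega, by omega⟩, ?_⟩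
    have : d - (d - j) = j := by omega
    simp only [this]
  triB := h.triB
  irr := h.irr

theorem exists_indep {A B : End K V} {d : ℕ} {θ φ : ℕ → K} (h : TD.TDPair A B d θ φ) {q : K}
    (hq : q ≠ 0) (hθ : ∀ i < d, θ i ≠ q ^ 2 * θ (i + 1)) :
    ∃ v : V, LinearIndependent K (fun k : Fin (d + 1) => ((TD.qComm A B q) ^ (k : ℕ)) v) := by
  obtain ⟨v, hv, hv0⟩ := Submodule.exists_mem_ne_zero_of_ne_bot (h.neA d le_rfl)
  exact ⟨v, TD.indep h hq hθ (TD.mem_esum (s := {k | d ≤ k ∧ k ≤ d}) ⟨le_rfl, le_rfl⟩ hv) hv0⟩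

theorem swap_comm (A B : End K V) (q : K) : TD.qComm B A q⁻¹ = -TD.qComm A B q := by
  simp [TD.qComm]

theorem exists_indep_neg {X : End K V} {d : ℕ}
    (h : ∃ v : V, LinearIndependent K (fun k : Fin (d + 1) => ((-X) ^ (k : ℕ)) v)) :
    ∃ v : V, LinearIndependent K (fun k : Fin (d + 1) => (X ^ (k : ℕ)) v) := by
  obtain ⟨v, hv⟩ := h
  refine ⟨v, ?_⟩
  have h1 := hv.units_smul (fun k : Fin (d + 1) => (-1 : Kˣ) ^ (k : ℕ))
  have e : ((fun k : Fin (d + 1) => (-1 : Kˣ) ^ (k : ℕ)) •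
      fun k : Fin (d + 1) => ((-X) ^ (k : ℕ)) v) =
      fun k : Fin (d + 1) => (X ^ (k : ℕ)) v := by
    funext k
    rw [Pi.smul_apply', Units.smul_def, neg_pow X (k : ℕ)]
    push_cast
    have e2 : ((-1 : End K V) ^ (k : ℕ) * X ^ (k : ℕ)) v = (-1 : K) ^ (k : ℕ) • (X ^ (k : ℕ)) v := by
      rcases Nat.even_or_odd (k : ℕ) with hk | hk
      · rw [hk.neg_one_pow, hk.neg_one_pow, one_mul, one_smul]
      · rw [hk.neg_one_pow, hk.neg_one_pow]
        simp
    rw [e2, smul_smul, ← mul_pow, neg_one_mul, neg_neg, one_pow, one_smul]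
  rwa [e] at h1

/-- Some vector `v` has `v, X v, …, X^d v` independent, `X` the `q`-commutator; hence the minimal
polynomial of `X` has degree at least `d + 1`. -/
theorem minpoly_ge [FiniteDimensional K V] {A B : End K V} {d : ℕ} {θ φ : ℕ → K}
    (h : Pool.Agent.Lib.MP_1e0d46_al.TDPair A B d θ φ) {q : K} (hq : q ≠ 0)
    (hc : q ^ 2 = 1 ∨ (∀ i < d, θ i ≠ q ^ 2 * θ (i + 1)) ∨ (∀ i < d, θ (i + 1) ≠ q ^ 2 * θ i) ∨
      (∀ i < d, φ i ≠ q ^ 2 * φ (i + 1)) ∨ (∀ i < d, φ (i + 1) ≠ q ^ 2 * φ i)) :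
    (∃ v : V, LinearIndependent K (fun k : Fin (d + 1) => ((qc q A B) ^ (k : ℕ)) v)) ∧
    d + 1 ≤ (minpoly K (qc q A B)).natDegree := by
  have hq2 : q ^ 2 ≠ 0 := pow_ne_zero 2 hq
  have h := toTD h
  have key : ∃ v : V, LinearIndependent K
      (fun k : Fin (d + 1) => ((TD.qComm A B q) ^ (k : ℕ)) v) := by
    rcases hc with hc | hc | hc | hc | hc
    · refine exists_indep h hq ?_
      intro i hi e
      rw [hc, one_mul] at e
      have := h.injA i hi.le (i + 1) hi e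
      omega
    · exact exists_indep h hq hc
    · refine exists_indep (reverse h) hq ?_
      intro i hi e
      have e1 : d - i = d - (i + 1) + 1 := by omega
      simp only [e1] at e
      exact hc (d - (i + 1)) (by omega) e
    · apply exists_indep_neg
      rw [← swap_comm]
      refine exists_indep (reverse (TD.swap h)) (inv_ne_zero hq) ?_
      intro i hi e
      have e1 : d - i = d - (i + 1) + 1 := by omega
      simp only [e1] at e
      apply hc (d - (i + 1)) (by omega)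
      rw [e, inv_pow, mul_inv_cancel_left₀ hq2]
    · apply exists_indep_neg
      rw [← swap_comm]
      refine exists_indep (TD.swap h) (inv_ne_zero hq) ?_
      intro i hi e
      apply hc i hi
      rw [e, inv_pow, mul_inv_cancel_left₀ hq2]
  obtain ⟨v, hv⟩ := key
  exact ⟨⟨v, hv⟩, (TD.concl _ hv).1⟩

end Pool.Agent.Lib.MP_1e0d46_al.Bridge
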