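import Pool.Agent.Lib.MP_1e0d46_al.Main

namespace Pool.Agent.Lib.MP_1e0d46_al

open Module Polynomial

variable {K V : Type*} [Field K] [AddCommGroup V] [Module K V]

/-- The q-commutator on `U_{n+1}` modulo `V_{n+1} + ... + V_d`. -/
theorem TDPair.qc_U {A B : End K V} {d : ℕ} {th ths : ℕ → K} (h : TDPair A B d th ths) (q : K)
    {n : ℕ} {x : V} (hx : x ∈ U A B d th ths (n + 1)) :
    qc q A B x - (q⁻¹ * th n - q * th (n + 1)) • (B x - ths (n + 1) • x) ∈
      seg A th (n + 1) d := by
  have hL : B x - ths (n + 1) • x ∈ seg A th n d := (h.lower x hx).2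
  have hxF : x ∈ seg A th (n + 1) d := hx.2
  have h1 : A (B x - ths (n + 1) • x) - th n • (B x - ths (n + 1) • x) ∈ seg A th (n + 1) d :=
    seg_sub_left _ hL
  have h2 : A x ∈ seg A th (n + 1) d := seg_A x hxF
  have h3 : A x - th (n + 1) • x ∈ seg A th (n + 1 + 1) d := seg_sub_left x hxF
  have h4 : B (A x - th (n + 1) • x) ∈ seg A th (n + 1) d := h.B_F _ h3
  have e : qc q A B x - (q⁻¹ * th n - q * th (n + 1)) • (B x - ths (n + 1) • x) =
      q⁻¹ • (A (B x - ths (n + 1) • x) - th n • (B x - ths (n + 1) • x)) +
      (q⁻¹ * ths (n + 1)) • A x - q • B (A x - th (n + 1) • x) -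
      (q * th (n + 1) * ths (n + 1)) • x := by
    simp only [qc, LinearMap.sub_apply, LinearMap.smul_apply, Module.End.mul_apply, map_sub,
      map_smul]
    module
  rw [e]
  exact Submodule.sub_mem _ (Submodule.sub_mem _ (Submodule.add_mem _ (Submodule.smul_mem _ _ h1)
    (Submodule.smul_mem _ _ h2)) (Submodule.smul_mem _ _ h4)) (Submodule.smul_mem _ _ hxF)

theorem TDPair.qc_F {A B : End K V} {d : ℕ} {th ths : ℕ → K} (h : TDPair A B d th ths) (q : K)
    {n : ℕ} {x : V} (hx : x ∈ seg A th (n + 1) d) : qc q A B x ∈ seg A th n d := by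
  simp only [qc, LinearMap.sub_apply, LinearMap.smul_apply, Module.End.mul_apply]
  exact Submodule.sub_mem _ (Submodule.smul_mem _ _ (seg_A _ (h.B_F _ hx)))
    (Submodule.smul_mem _ _ (h.B_F _ (seg_A _ hx)))

theorem sum_split (u : ℕ → ℕ) (d m : ℕ) (hm : m ≤ d) :
    (∑ i ∈ Finset.range d, if i < m then u i else u (i + 1)) + u m =
      ∑ i ∈ Finset.range (d + 1), u i := by
  induction d with
  | zero => obtain rfl : m = 0 := by omega
            simp
  | succ d ih =>
    rw [Finset.sum_range_succ, Finset.sum_range_succ (fun i => u i)]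
    rcases Nat.lt_or_ge d m with h1 | h1
    · obtain rfl : m = d + 1 := by omega
      rw [if_pos (by omega)]
      have : (∑ i ∈ Finset.range d, if i < d + 1 then u i else u (i + 1)) =
          ∑ i ∈ Finset.range d, u i := by
        apply Finset.sum_congr rfl
        intro i hi
        rw [Finset.mem_range] at hi
        rw [if_pos (by omega)]
      rw [this, Finset.sum_range_succ]
    · rw [if_neg (by omega)]
      have := ih h1
      omega

variable [FiniteDimensional K V]

theorem TDPair.finrank_U {A B : End K V} {d : ℕ} {th ths : ℕ → K} (h : TDPair A B d th ths)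
    {m : ℕ} (hm : m ≤ d) :
    finrank K (U A B d th ths m) = finrank K (A.eigenspace (th m)) := by
  have h1 : U A B d th ths m ⊓ seg A th (m + 1) d = ⊥ := by
    rw [eq_bot_iff, ← h.zero (a := m)]
    exact inf_le_inf inf_le_left le_rfl
  have h2 : A.eigenspace (th m) ⊓ seg A th (m + 1) d = ⊥ := by
    have := h.left.disj (i := m) (a := m) (b := m + 1) (by omega)
    rwa [seg_self] at this
  have h3 : A.eigenspace (th m) ⊔ seg A th (m + 1) d = seg A th m d := by
    apply le_antisymm
    · exact sup_le (le_seg le_rfl hm) (seg_mono (by omega) le_rfl)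
    · refine seg_le fun k hk hk' => ?_
      rcases eq_or_lt_of_le hk with rfl | hlt
      · exact le_sup_left
      · exact le_sup_of_le_right (le_seg hlt hk')
  have h4 : U A B d th ths m ⊔ seg A th (m + 1) d = seg A th m d := by
    apply le_antisymm
    · exact sup_le inf_le_right (seg_mono (by omega) le_rfl)
    · intro x hx
      have hx' : x ∈ seg B ths 0 m ⊔ seg A th (m + 1) d := by
        have : (⨆ a, ⨆ (_ : a ≤ d), U A B d th ths a) ≤ seg B ths 0 m ⊔ seg A th (m + 1) d := by
          refine iSup₂_le fun a _ => ?_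
          rcases Nat.lt_or_ge m a with h5 | h5
          · exact le_sup_of_le_right (inf_le_right.trans (seg_mono h5 le_rfl))
          · exact le_sup_of_le_left (inf_le_left.trans (seg_mono le_rfl h5))
        rw [h.split] at this
        exact this Submodule.mem_top
      obtain ⟨u, hu, w, hw, rfl⟩ := Submodule.mem_sup.1 hx'
      refine Submodule.mem_sup.2 ⟨u, ⟨hu, ?_⟩, w, hw, rfl⟩
      have := Submodule.sub_mem _ hx (seg_mono (A := A) (th := th) (i' := m) (j' := d)
        (by omega) le_rfl hw)
      simpa using this
  have e1 := Submodule.finrank_sup_add_finrank_inf_eq (U A B d th ths m) (seg A th (m + 1) d)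
  have e2 := Submodule.finrank_sup_add_finrank_inf_eq (A.eigenspace (th m)) (seg A th (m + 1) d)
  rw [h1, h4] at e1
  rw [h2, h3] at e2
  omega

theorem TDPair.finrank_V_le {A B : End K V} {d : ℕ} {th ths : ℕ → K}
    (h : TDPair A B d th ths) :
    finrank K V ≤ ∑ i ∈ Finset.range (d + 1), finrank K (U A B d th ths i) := by
  have key : ∀ n, finrank K (⨆ a, ⨆ (_ : a < n), U A B d th ths a : Submodule K V) ≤
      ∑ i ∈ Finset.range n, finrank K (U A B d th ths i) := by
    intro n
    induction n with
    | zero => simp
    | succ n ih =>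
      rw [Finset.sum_range_succ]
      have h1 : (⨆ a, ⨆ (_ : a < n + 1), U A B d th ths a) ≤
          (⨆ a, ⨆ (_ : a < n), U A B d th ths a) ⊔ U A B d th ths n := by
        refine iSup₂_le fun a ha => ?_
        rcases Nat.lt_or_ge a n with h5 | h5
        · exact le_sup_of_le_left (le_iSup₂_of_le (f := fun a (_ : a < n) => U A B d th ths a)
            a h5 le_rfl)
        · obtain rfl : a = n := by omega
          exact le_sup_right
      exact (Submodule.finrank_mono h1).trans
        ((Submodule.finrank_add_le_finrank_add_finrank _ _).trans (by omega))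
  have h2 : (⨆ a, ⨆ (_ : a < d + 1), U A B d th ths a) = ⊤ := by
    rw [eq_top_iff, ← h.split]
    refine iSup₂_le fun a ha => ?_
    exact le_iSup₂_of_le (f := fun a (_ : a < d + 1) => U A B d th ths a) a (by omega) le_rfl
  have h3 := key (d + 1)
  rwa [h2, finrank_top] at h3

/-- The bound for the number of Jordan blocks. -/
theorem TDPair.blocks {A B : End K V} {d : ℕ} {th ths : ℕ → K} (h : TDPair A B d th ths)
    (q : K) (hq : ∀ i < d, q⁻¹ * th i ≠ q * th (i + 1)) (mu : K) :
    finrank K ((qc q A B).eigenspace mu) ≤ finrank K (A.eigenspace (th (d / 2))) := by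
  choose C hC1 hC2 hC3 using fun i : Fin d =>
    exists_compl (B - ths (i + 1) • (1 : End K V)) (U A B d th ths (i + 1))
  set N := (qc q A B).eigenspace mu with hN
  let φ : (∀ i : Fin d, C i) →ₗ[K] V ⧸ N :=
    N.mkQ ∘ₗ (∑ i : Fin d, (C i).subtype ∘ₗ LinearMap.proj i)
  have hφ : Function.Injective φ := by
    rw [injective_iff_map_eq_zero]
    intro x hx
    have hx1 : (∑ i : Fin d, (x i : V)) ∈ N := by
      have : φ x = N.mkQ (∑ i : Fin d, (x i : V)) := by
        simp [φ]
      rw [this, Submodule.mkQ_apply, Submodule.Quotient.mk_eq_zero] at hx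
      exact hx
    have key : ∀ n, ∀ i : Fin d, (i : ℕ) < n → x i = 0 := by
      intro n
      induction n with
      | zero => intro i hi; omega
      | succ n ih =>
        intro i hi
        rcases Nat.lt_or_ge i n with h5 | h5
        · exact ih i h5
        obtain hin : (i : ℕ) = n := by omega
        subst hin
        set y : V := ∑ j ∈ Finset.univ.erase i, (x j : V) with hy
        have hsum : (∑ j : Fin d, (x j : V)) = x i + y := by
          exact (Finset.add_sum_erase Finset.univ (fun j => (x j : V)) (Finset.mem_univ i)).symm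
        have hyF : y ∈ seg A th (i + 1 + 1) d := by
          refine Submodule.sum_mem _ fun j hj => ?_
          rcases Nat.lt_or_ge j i with h6 | h6
          · rw [ih j h6]; exact Submodule.zero_mem _
          · have h7 : (j : ℕ) ≠ i := fun e => (Finset.mem_erase.1 hj).1 (Fin.ext e)
            exact seg_mono (by omega) le_rfl (hC1 j (x j).2).2
        have hxU := hC1 i (x i).2
        have h8 := h.qc_U q hxU
        have h9 := h.qc_F q hyF
        rw [hsum, hN, End.mem_eigenspace_iff, map_add] at hx1
        have hL := h.lower (a := i) (x i) hxU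
        have h10 : (q⁻¹ * th i - q * th (i + 1)) • (B (x i) - ths (i + 1) • (x i : V)) ∈
            seg A th (i + 1) d := by
          have e : (q⁻¹ * th i - q * th (i + 1)) • (B (x i) - ths (i + 1) • (x i : V)) =
              mu • ((x i : V) + y) - qc q A B y -
              (qc q A B (x i) - (q⁻¹ * th i - q * th (i + 1)) •
                (B (x i) - ths (i + 1) • (x i : V))) := by
            rw [← hx1]; abel
          rw [e]
          exact Submodule.sub_mem _ (Submodule.sub_mem _ (Submodule.smul_mem _ _
            (Submodule.add_mem _ hxU.2 (seg_mono (by omega) le_rfl hyF))) h9) h8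
        have hc : q⁻¹ * th i - q * th (i + 1) ≠ 0 := sub_ne_zero.2 (hq i i.2)
        have h11 : B (x i) - ths (i + 1) • (x i : V) ∈ seg A th (i + 1) d := by
          have := Submodule.smul_mem _ (q⁻¹ * th i - q * th (i + 1))⁻¹ h10
          rwa [smul_smul, inv_mul_cancel₀ hc, one_smul] at this
        have h12 : B (x i) - ths (i + 1) • (x i : V) ∈ seg B ths 0 i ⊓ seg A th (i + 1) d :=
          ⟨hL.1, h11⟩
        rw [h.zero, Submodule.mem_bot] at h12
        ext
        exact hC2 i (x i) (x i).2 (by simpa using h12)
    ext i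
    rw [key (i + 1) i (by omega)]
    simp
  have h1 := LinearMap.finrank_le_finrank_of_injective hφ
  rw [Module.finrank_pi_fintype] at h1
  have h2 : ∑ i : Fin d, finrank K (C i) = ∑ i ∈ Finset.range d,
      if i < d / 2 then finrank K (U A B d th ths i) else finrank K (U A B d th ths (i + 1)) := by
    rw [← Fin.sum_univ_eq_sum_range (fun i => if i < d / 2 then finrank K (U A B d th ths i) else
      finrank K (U A B d th ths (i + 1)))]
    apply Finset.sum_congr rfl
    intro i _
    rw [hC3, h.rank_low i.2]
  have h3 := sum_split (fun i => finrank K (U A B d th ths i)) d (d / 2) (by omega)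
  have h4 := h.finrank_V_le
  have h5 := Submodule.finrank_quotient_add_finrank N
  rw [← h.finrank_U (by omega : d / 2 ≤ d)]
  omega

end Pool.Agent.Lib.MP_1e0d46_al
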