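import Pool.Agent.Lib.MP_1e0d46_al.Dirs

namespace Pool.Agent.Lib.MP_1e0d46_al

open Module Polynomial

variable {K V : Type*} [Field K] [AddCommGroup V] [Module K V] [FiniteDimensional K V]

theorem TDPair.unimodal {A B : End K V} {d : ℕ} {th ths : ℕ → K} (h : TDPair A B d th ths)
    {i : ℕ} (hi : i ≤ d) :
    finrank K (U A B d th ths i) ≤ finrank K (U A B d th ths (d / 2)) := by
  have key : ∀ n, n ≤ d / 2 → ∀ i ≤ n,
      finrank K (U A B d th ths i) ≤ finrank K (U A B d th ths n) := by
    intro n
    induction n with
    | zero => intro _ i hi; rw [Nat.le_zero.1 hi]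
    | succ n ih =>
      intro hn i hi
      rcases Nat.lt_or_ge n i with h1 | h1
      · obtain rfl : i = n + 1 := by omega
        exact le_rfl
      · refine (ih (by omega) i h1).trans ?_
        rw [← h.low_surj (k := n) (by omega)]
        exact Submodule.finrank_map_le _ _
  rcases Nat.lt_or_ge (d / 2) i with h1 | h1
  · rw [← h.symm hi]
    exact key (d / 2) le_rfl _ (by omega)
  · exact key (d / 2) le_rfl i h1

/-- The bound for the number of Jordan blocks, with one exceptional index. -/
theorem TDPair.blocksE {A B : End K V} {d : ℕ} {th ths : ℕ → K} (h : TDPair A B d th ths)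
    (q : K) (i0 : ℕ) (hq : ∀ i < d, i ≠ i0 → q⁻¹ * th i ≠ q * th (i + 1)) (mu : K) :
    finrank K ((qc q A B).eigenspace mu) ≤ 2 * finrank K (A.eigenspace (th (d / 2))) := by
  have hex : ∀ i : Fin d, ∃ C ≤ U A B d th ths (i + 1),
      (∀ v ∈ C, (B - ths (i + 1) • (1 : End K V)) v = 0 → v = 0) ∧
      ((i : ℕ) = i0 → C = ⊥) ∧
      finrank K ((U A B d th ths (i + 1)).map (B - ths (i + 1) • (1 : End K V))) ≤
        finrank K C + if (i : ℕ) = i0 then finrank K (U A B d th ths (d / 2)) else 0 := by
    intro i
    by_cases hi : (i : ℕ) = i0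
    · refine ⟨⊥, bot_le, fun v hv _ => (Submodule.mem_bot K).1 hv, fun _ => rfl, ?_⟩
      rw [if_pos hi, finrank_bot, zero_add]
      exact (Submodule.finrank_map_le _ _).trans (h.unimodal (by omega))
    · obtain ⟨C, h1, h2, h3⟩ := exists_compl (B - ths (i + 1) • (1 : End K V))
        (U A B d th ths (i + 1))
      exact ⟨C, h1, h2, fun e => absurd e hi, by rw [if_neg hi, h3]; rfl⟩
  choose C hC1 hC2 hC4 hC3 using hex
  set N := (qc q A B).eigenspace mu with hN
  let φ : (∀ i : Fin d, C i) →ₗ[K] V ⧸ N :=
    N.mkQ ∘ₗ (∑ i : Fin d, (C i).subtype ∘ₗ LinearMap.proj i)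
  have hφ : Function.Injective φ := by
    rw [injective_iff_map_eq_zero]
    intro x hx
    have hx1 : (∑ i : Fin d, (x i : V)) ∈ N := by
      have : φ x = N.mkQ (∑ i : Fin d, (x i : V)) := by
        simp [φ]
      rw [this, Submodule.mkQ_apply, Submodule.Quotient.mk_eq_zero] at hx
      exact hx
    have key : ∀ n, ∀ i : Fin d, (i : ℕ) < n → x i = 0 := by
      intro n
      induction n with
      | zero => intro i hi; omega
      | succ n ih =>
        intro i hi
        rcases Nat.lt_or_ge i n with h5 | h5
        · exact ih i h5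
        obtain hin : (i : ℕ) = n := by omega
        subst hin
        by_cases hi0 : (i : ℕ) = i0
        · have h6 : ∀ v ∈ C i, v = 0 := by
            rw [hC4 i hi0]
            intro v hv
            exact (Submodule.mem_bot K).1 hv
          exact Subtype.ext (h6 _ (x i).2)
        set y : V := ∑ j ∈ Finset.univ.erase i, (x j : V) with hy
        have hsum : (∑ j : Fin d, (x j : V)) = x i + y := by
          exact (Finset.add_sum_erase Finset.univ (fun j => (x j : V)) (Finset.mem_univ i)).symm
        have hyF : y ∈ seg A th (i + 1 + 1) d := by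
          refine Submodule.sum_mem _ fun j hj => ?_
          rcases Nat.lt_or_ge j i with h6 | h6
          · rw [ih j h6]; exact Submodule.zero_mem _
          · have h7 : (j : ℕ) ≠ i := fun e => (Finset.mem_erase.1 hj).1 (Fin.ext e)
            exact seg_mono (by omega) le_rfl (hC1 j (x j).2).2
        have hxU := hC1 i (x i).2
        have h8 := h.qc_U q hxU
        have h9 := h.qc_F q hyF
        rw [hsum, hN, End.mem_eigenspace_iff, map_add] at hx1
        have hL := h.lower (a := i) (x i) hxU
        have h10 : (q⁻¹ * th i - q * th (i + 1)) • (B (x i) - ths (i + 1) • (x i : V)) ∈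
            seg A th (i + 1) d := by
          have e : (q⁻¹ * th i - q * th (i + 1)) • (B (x i) - ths (i + 1) • (x i : V)) =
              mu • ((x i : V) + y) - qc q A B y -
              (qc q A B (x i) - (q⁻¹ * th i - q * th (i + 1)) •
                (B (x i) - ths (i + 1) • (x i : V))) := by
            rw [← hx1]; abel
          rw [e]
          exact Submodule.sub_mem _ (Submodule.sub_mem _ (Submodule.smul_mem _ _
            (Submodule.add_mem _ hxU.2 (seg_mono (by omega) le_rfl hyF))) h9) h8
        have hc : q⁻¹ * th i - q * th (i + 1) ≠ 0 := sub_ne_zero.2 (hq i i.2 hi0)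
        have h11 : B (x i) - ths (i + 1) • (x i : V) ∈ seg A th (i + 1) d := by
          have := Submodule.smul_mem _ (q⁻¹ * th i - q * th (i + 1))⁻¹ h10
          rwa [smul_smul, inv_mul_cancel₀ hc, one_smul] at this
        have h12 : B (x i) - ths (i + 1) • (x i : V) ∈ seg B ths 0 i ⊓ seg A th (i + 1) d :=
          ⟨hL.1, h11⟩
        rw [h.zero, Submodule.mem_bot] at h12
        ext
        exact hC2 i (x i) (x i).2 (by simpa using h12)
    ext i
    rw [key (i + 1) i (by omega)]
    simp
  have h1 := LinearMap.finrank_le_finrank_of_injective hφ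
  rw [Module.finrank_pi_fintype] at h1
  have h2 : ∑ i ∈ Finset.range d,
      (if i < d / 2 then finrank K (U A B d th ths i) else finrank K (U A B d th ths (i + 1))) ≤
      ∑ i : Fin d, finrank K (C i) + finrank K (U A B d th ths (d / 2)) := by
    rw [← Fin.sum_univ_eq_sum_range (fun i => if i < d / 2 then finrank K (U A B d th ths i) else
      finrank K (U A B d th ths (i + 1)))]
    have h6 : ∑ i : Fin d, (if (i : ℕ) < d / 2 then finrank K (U A B d th ths i) else
        finrank K (U A B d th ths (i + 1))) ≤ ∑ i : Fin d, (finrank K (C i) +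
          if (i : ℕ) = i0 then finrank K (U A B d th ths (d / 2)) else 0) := by
      apply Finset.sum_le_sum
      intro i _
      rw [← h.rank_low i.2]
      exact hC3 i
    refine h6.trans ?_
    rw [Finset.sum_add_distrib]
    have h7 : ∑ i : Fin d, (if (i : ℕ) = i0 then finrank K (U A B d th ths (d / 2)) else 0) ≤
        finrank K (U A B d th ths (d / 2)) := by
      by_cases hi : i0 < d
      · rw [Finset.sum_eq_single (⟨i0, hi⟩ : Fin d)]
        · simp
        · intro b _ hb
          rw [if_neg]
          intro e
          exact hb (Fin.ext e)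
        · intro hb
          exact absurd (Finset.mem_univ _) hb
      · rw [Finset.sum_eq_zero]
        · exact Nat.zero_le _
        · intro b _
          rw [if_neg]
          have := b.2
          omega
    omega
  have h3 := sum_split (fun i => finrank K (U A B d th ths i)) d (d / 2) (by omega)
  have h4 := h.finrank_V_le
  have h5 := Submodule.finrank_quotient_add_finrank N
  rw [← h.finrank_U (by omega : d / 2 ≤ d)]
  omega

end Pool.Agent.Lib.MP_1e0d46_al
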