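import Mathlib

/-!
Tridiagonal pairs and the rank bound for the q-commutator.
-/

namespace Pool.Agent.Lib.MP_1e0d46_al

open Module

variable {K V : Type*} [Field K] [AddCommGroup V] [Module K V]

/-- `V_i + ... + V_j` (for the eigenspaces `V_k` of `A` with the eigenvalues `th k`). -/
def seg (A : End K V) (th : ℕ → K) (i j : ℕ) : Submodule K V :=
  ⨆ (k : ℕ) (_ : i ≤ k ∧ k ≤ j), A.eigenspace (th k)

/-- `B V_i ⊆ V_{i-1} + V_i + V_{i+1}` for the ordering `V_0, …, V_d` of the eigenspaces of `A`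
(with the distinct eigenvalues `th 0, …, th d`), and `A` is diagonalizable. -/
structure Half (A B : End K V) (d : ℕ) (th : ℕ → K) : Prop where
  inj : ∀ i ≤ d, ∀ j ≤ d, th i = th j → i = j
  ne : ∀ i ≤ d, A.eigenspace (th i) ≠ ⊥
  top : seg A th 0 d = ⊤
  tri : ∀ i ≤ d, ∀ v ∈ A.eigenspace (th i), B v ∈ seg A th (i - 1) (min (i + 1) d)

/-- `A, B` is a tridiagonal pair of diameter `d` on `V`, with the eigenvalues `th i` of `A` and
`ths i` of `B` in a standard order. -/
structure TDPair (A B : End K V) (d : ℕ) (th ths : ℕ → K) : Prop where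
  left : Half A B d th
  right : Half B A d ths
  irr : ∀ W : Submodule K V, (∀ w ∈ W, A w ∈ W) → (∀ w ∈ W, B w ∈ W) → W = ⊥ ∨ W = ⊤

/-- The q-commutator `q⁻¹ A B - q B A`. -/
def qc (q : K) (A B : End K V) : End K V := q⁻¹ • (A * B) - q • (B * A)

theorem le_seg {A : End K V} {th : ℕ → K} {i j k : ℕ} (h : i ≤ k) (h' : k ≤ j) :
    A.eigenspace (th k) ≤ seg A th i j :=
  le_iSup₂_of_le k ⟨h, h'⟩ le_rfl

theorem seg_le {A : End K V} {th : ℕ → K} {i j : ℕ} {W : Submodule K V}
    (h : ∀ k, i ≤ k → k ≤ j → A.eigenspace (th k) ≤ W) : seg A th i j ≤ W :=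
  iSup₂_le fun k hk => h k hk.1 hk.2

theorem seg_mono {A : End K V} {th : ℕ → K} {i j i' j' : ℕ} (h : i' ≤ i) (h' : j ≤ j') :
    seg A th i j ≤ seg A th i' j' :=
  seg_le fun k hk hk' => le_seg (h.trans hk) (hk'.trans h')

theorem seg_self {A : End K V} {th : ℕ → K} {i : ℕ} : seg A th i i = A.eigenspace (th i) := by
  apply le_antisymm
  · refine seg_le fun k hk hk' => ?_
    obtain rfl : k = i := le_antisymm hk' hk
    exact le_rfl
  · exact le_seg le_rfl le_rfl

theorem seg_empty {A : End K V} {th : ℕ → K} {i j : ℕ} (h : j < i) : seg A th i j = ⊥ := by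
  rw [eq_bot_iff]
  exact seg_le fun k hk hk' => by omega

/-- a linear map which maps each `V_k` of the segment into `W` maps the segment into `W` -/
theorem seg_map {A : End K V} {th : ℕ → K} {i j : ℕ} {W : Submodule K V} (T : End K V)
    (h : ∀ k, i ≤ k → k ≤ j → ∀ v ∈ A.eigenspace (th k), T v ∈ W) :
    ∀ v ∈ seg A th i j, T v ∈ W := by
  intro v hv
  have : seg A th i j ≤ W.comap T := seg_le fun k hk hk' v hv => h k hk hk' v hv
  exact this hv

theorem seg_A {A : End K V} {th : ℕ → K} {i j : ℕ} : ∀ v ∈ seg A th i j, A v ∈ seg A th i j := by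
  refine seg_map A fun k hk hk' v hv => ?_
  rw [End.mem_eigenspace_iff] at hv
  rw [hv]
  exact Submodule.smul_mem _ _ (le_seg hk hk' (by rw [End.mem_eigenspace_iff]; exact hv))

/-- `A - th i` maps `V_i + ... + V_j` to `V_{i+1} + ... + V_j`. -/
theorem seg_sub_left {A : End K V} {th : ℕ → K} {i j : ℕ} :
    ∀ v ∈ seg A th i j, A v - th i • v ∈ seg A th (i + 1) j := by
  intro v hv
  refine seg_map (A - th i • 1) (fun k hk hk' v hv => ?_) v hv
  have h1 := hv
  rw [End.mem_eigenspace_iff] at hv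
  have e : (A - th i • (1 : End K V)) v = (th k - th i) • v := by
    simp [hv, sub_smul]
  rw [e]
  rcases eq_or_lt_of_le hk with rfl | hlt
  · simp
  · exact Submodule.smul_mem _ _ (le_seg hlt hk' h1)

/-- `A - th j` maps `V_i + ... + V_j` to `V_i + ... + V_{j-1}`. -/
theorem seg_sub_right {A : End K V} {th : ℕ → K} {i j : ℕ} :
    ∀ v ∈ seg A th i (j + 1), A v - th (j + 1) • v ∈ seg A th i j := by
  intro v hv
  refine seg_map (A - th (j + 1) • 1) (fun k hk hk' v hv => ?_) v hv
  have h1 := hv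
  rw [End.mem_eigenspace_iff] at hv
  have e : (A - th (j + 1) • (1 : End K V)) v = (th k - th (j + 1)) • v := by
    simp [hv, sub_smul]
  rw [e]
  rcases eq_or_lt_of_le hk' with rfl | hlt
  · simp
  · exact Submodule.smul_mem _ _ (le_seg hk (by omega) h1)

theorem Half.B_seg {A B : End K V} {d : ℕ} {th : ℕ → K} (h : Half A B d th) {i j : ℕ}
    (hj : j ≤ d) : ∀ v ∈ seg A th i j, B v ∈ seg A th (i - 1) (min (j + 1) d) := by
  refine seg_map B fun k hk hk' v hv => ?_
  have := h.tri k (hk'.trans hj) v hv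
  exact seg_mono (by omega) (by omega) this

theorem Half.disj {A B : End K V} {d : ℕ} {th : ℕ → K} (h : Half A B d th) {i a b : ℕ}
    (hab : a < b) : seg A th i a ⊓ seg A th b d = ⊥ := by
  rcases le_or_gt b d with hb | hb
  · have hi := Module.End.eigenspaces_iSupIndep A
    have hd : Disjoint (th '' {k | i ≤ k ∧ k ≤ a}) (th '' {k | b ≤ k ∧ k ≤ d}) := by
      rw [Set.disjoint_left]
      rintro _ ⟨k, hk, rfl⟩ ⟨l, hl, hkl⟩
      have := h.inj k (by have := hk.2; omega) l hl.2 hkl.symm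
      have h1 := hk.2
      have h2 := hl.1
      omega
    have h3 := hi.disjoint_biSup_biSup hd
    rw [← disjoint_iff]
    refine h3.mono ?_ ?_
    · exact seg_le fun k hk hk' => le_iSup₂_of_le (th k) ⟨k, ⟨hk, hk'⟩, rfl⟩ le_rfl
    · exact seg_le fun k hk hk' => le_iSup₂_of_le (th k) ⟨k, ⟨hk, hk'⟩, rfl⟩ le_rfl
  · rw [seg_empty hb, inf_bot_eq]

/-- Reversing the order. -/
theorem seg_rev {A : End K V} {th : ℕ → K} {d i j : ℕ} (hi : i ≤ d) (hj : j ≤ d) :
    seg A (fun k => th (d - k)) i j = seg A th (d - j) (d - i) := by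
  apply le_antisymm
  · exact seg_le fun k hk hk' => le_seg (th := th) (k := d - k) (by omega) (by omega)
  · refine seg_le fun k hk hk' => ?_
    have := le_seg (A := A) (th := fun k => th (d - k)) (i := i) (j := j) (k := d - k)
      (by omega) (by omega)
    have e : d - (d - k) = k := by omega
    simpa [e] using this

theorem Half.rev {A B : End K V} {d : ℕ} {th : ℕ → K} (h : Half A B d th) :
    Half A B d (fun k => th (d - k)) where
  inj i hi j hj e := by
    have := h.inj (d - i) (by omega) (d - j) (by omega) e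
    omega
  ne i _ := h.ne (d - i) (by omega)
  top := by rw [seg_rev (by omega) le_rfl]; simpa using h.top
  tri i hi v hv := by
    have := h.tri (d - i) (by omega) v hv
    rw [seg_rev (by omega) (by omega)]
    exact seg_mono (by omega) (by omega) this

theorem TDPair.revA {A B : End K V} {d : ℕ} {th ths : ℕ → K} (h : TDPair A B d th ths) :
    TDPair A B d (fun k => th (d - k)) ths := ⟨h.left.rev, h.right, h.irr⟩

theorem TDPair.revB {A B : End K V} {d : ℕ} {th ths : ℕ → K} (h : TDPair A B d th ths) :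
    TDPair A B d th (fun k => ths (d - k)) := ⟨h.left, h.right.rev, h.irr⟩

/-- `A` raises the flag `V*_0 + ... + V*_a`. -/
theorem TDPair.A_G {A B : End K V} {d : ℕ} {th ths : ℕ → K} (h : TDPair A B d th ths) {a : ℕ}
    (ha : a ≤ d) : ∀ v ∈ seg B ths 0 a, A v ∈ seg B ths 0 (a + 1) := fun v hv =>
  seg_mono (by omega) (by omega) (h.right.B_seg ha v hv)

/-- `B` maps `V_b + ... + V_d` into `V_{b-1} + ... + V_d`. -/
theorem TDPair.B_F {A B : End K V} {d : ℕ} {th ths : ℕ → K} (h : TDPair A B d th ths) {b : ℕ} :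
    ∀ v ∈ seg A th (b + 1) d, B v ∈ seg A th b d := fun v hv =>
  seg_mono (by omega) (by omega) (h.left.B_seg le_rfl v hv)

theorem TDPair.B_G0 {A B : End K V} {d : ℕ} {th ths : ℕ → K} (_h : TDPair A B d th ths) :
    ∀ v ∈ seg B ths 0 0, B v = ths 0 • v := fun v hv => by
  rw [seg_self, End.mem_eigenspace_iff] at hv
  exact hv

/-- `(V*_0 + ... + V*_a) ∩ (V_{a+1} + ... + V_d) = 0`. -/
theorem TDPair.zero {A B : End K V} {d : ℕ} {th ths : ℕ → K} (h : TDPair A B d th ths) {a : ℕ} :
    seg B ths 0 a ⊓ seg A th (a + 1) d = ⊥ := by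
  rcases lt_or_ge a d with had | had
  swap
  · rw [seg_empty (i := a + 1) (j := d) (by omega), inf_bot_eq]
  have key : (⨆ a, ⨆ (_ : a < d), seg B ths 0 a ⊓ seg A th (a + 1) d) = ⊥ := by
    have hA : ∀ w ∈ (⨆ a, ⨆ (_ : a < d), seg B ths 0 a ⊓ seg A th (a + 1) d), A w ∈ (⨆ a, ⨆ (_ : a < d), seg B ths 0 a ⊓ seg A th (a + 1) d) := by
      intro w hw
      have : (⨆ a, ⨆ (_ : a < d), seg B ths 0 a ⊓ seg A th (a + 1) d) ≤
          (⨆ a, ⨆ (_ : a < d), seg B ths 0 a ⊓ seg A th (a + 1) d).comap A := by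
        refine iSup₂_le fun a ha v hv => ?_
        rw [Submodule.mem_comap]
        have e : A v = (A v - th (a + 1) • v) + th (a + 1) • v := by abel
        rw [e]
        have hv0 : v ∈ ⨆ a, ⨆ (_ : a < d), seg B ths 0 a ⊓ seg A th (a + 1) d :=
          (le_iSup₂_of_le (f := fun a (_ : a < d) => seg B ths 0 a ⊓ seg A th (a + 1) d)
            a ha le_rfl) hv
        refine Submodule.add_mem _ ?_ (Submodule.smul_mem _ _ hv0)
        have h5 : A v - th (a + 1) • v ∈ seg A th (a + 1 + 1) d := seg_sub_left v hv.2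
        have h6 : A v - th (a + 1) • v ∈ seg B ths 0 (a + 1) :=
          Submodule.sub_mem _ (h.A_G ha.le v hv.1)
            (Submodule.smul_mem _ _ (seg_mono le_rfl (by omega) hv.1))
        rcases lt_or_ge (a + 1) d with h7 | h7
        · exact (le_iSup₂_of_le (f := fun a (_ : a < d) => seg B ths 0 a ⊓ seg A th (a + 1) d)
            (a + 1) h7 le_rfl) ⟨h6, h5⟩
        · rw [seg_empty (by omega), Submodule.mem_bot] at h5
          rw [h5]; exact Submodule.zero_mem _
      exact this hw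
    have hB : ∀ w ∈ (⨆ a, ⨆ (_ : a < d), seg B ths 0 a ⊓ seg A th (a + 1) d), B w ∈ (⨆ a, ⨆ (_ : a < d), seg B ths 0 a ⊓ seg A th (a + 1) d) := by
      intro w hw
      have : (⨆ a, ⨆ (_ : a < d), seg B ths 0 a ⊓ seg A th (a + 1) d) ≤
          (⨆ a, ⨆ (_ : a < d), seg B ths 0 a ⊓ seg A th (a + 1) d).comap B := by
        refine iSup₂_le fun a ha v hv => ?_
        rw [Submodule.mem_comap]
        have hv0 : v ∈ ⨆ a, ⨆ (_ : a < d), seg B ths 0 a ⊓ seg A th (a + 1) d :=
          (le_iSup₂_of_le (f := fun a (_ : a < d) => seg B ths 0 a ⊓ seg A th (a + 1) d)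
            a ha le_rfl) hv
        rcases a with _ | a
        · rw [h.B_G0 v hv.1]
          exact Submodule.smul_mem _ _ hv0
        · have e : B v = (B v - ths (a + 1) • v) + ths (a + 1) • v := by abel
          rw [e]
          refine Submodule.add_mem _ ?_ (Submodule.smul_mem _ _ hv0)
          refine (le_iSup₂_of_le (f := fun a (_ : a < d) => seg B ths 0 a ⊓ seg A th (a + 1) d)
            a (by omega) le_rfl) ⟨seg_sub_right v hv.1, ?_⟩
          exact Submodule.sub_mem _ (h.B_F v hv.2)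
            (Submodule.smul_mem _ _ (seg_mono (by omega) le_rfl hv.2))
      exact this hw
    rcases h.irr _ hA hB with h1 | h1
    · exact h1
    · exfalso
      have h2 : (⨆ a, ⨆ (_ : a < d), seg B ths 0 a ⊓ seg A th (a + 1) d) ≤ seg A th 1 d :=
        iSup₂_le fun a _ => inf_le_right.trans (seg_mono (by omega) le_rfl)
      rw [h1, top_le_iff] at h2
      have h3 := h.left.disj (i := 0) (a := 0) (b := 1) (by omega)
      rw [h2, inf_top_eq, seg_self] at h3
      exact h.left.ne 0 (by omega) h3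
  rw [eq_bot_iff, ← key]
  exact le_iSup₂_of_le (f := fun a (_ : a < d) => seg B ths 0 a ⊓ seg A th (a + 1) d) a had le_rfl

/-- The split decomposition. -/
def U (A B : End K V) (d : ℕ) (th ths : ℕ → K) (a : ℕ) : Submodule K V :=
  seg B ths 0 a ⊓ seg A th a d

theorem TDPair.raise {A B : End K V} {d : ℕ} {th ths : ℕ → K} (h : TDPair A B d th ths) {a : ℕ}
    (ha : a ≤ d) : ∀ v ∈ U A B d th ths a, A v - th a • v ∈ U A B d th ths (a + 1) :=
  fun v hv => ⟨Submodule.sub_mem _ (h.A_G ha v hv.1)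
    (Submodule.smul_mem _ _ (seg_mono le_rfl (by omega) hv.1)), seg_sub_left v hv.2⟩

theorem TDPair.lower {A B : End K V} {d : ℕ} {th ths : ℕ → K} (h : TDPair A B d th ths) {a : ℕ} :
    ∀ v ∈ U A B d th ths (a + 1), B v - ths (a + 1) • v ∈ U A B d th ths a :=
  fun v hv => ⟨seg_sub_right v hv.1, Submodule.sub_mem _ (h.B_F v hv.2)
    (Submodule.smul_mem _ _ (seg_mono (by omega) le_rfl hv.2))⟩

theorem TDPair.split {A B : End K V} {d : ℕ} {th ths : ℕ → K} (h : TDPair A B d th ths) :
    (⨆ a, ⨆ (_ : a ≤ d), U A B d th ths a) = ⊤ := by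
  have hA : ∀ w ∈ (⨆ a, ⨆ (_ : a ≤ d), U A B d th ths a), A w ∈ (⨆ a, ⨆ (_ : a ≤ d), U A B d th ths a) := by
    intro w hw
    have : (⨆ a, ⨆ (_ : a ≤ d), U A B d th ths a) ≤
        (⨆ a, ⨆ (_ : a ≤ d), U A B d th ths a).comap A := by
      refine iSup₂_le fun a ha v hv => ?_
      rw [Submodule.mem_comap]
      have e : A v = (A v - th a • v) + th a • v := by abel
      rw [e]
      have hv0 : v ∈ ⨆ a, ⨆ (_ : a ≤ d), U A B d th ths a :=
        (le_iSup₂_of_le (f := fun a (_ : a ≤ d) => U A B d th ths a) a ha le_rfl) hv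
      refine Submodule.add_mem _ ?_ (Submodule.smul_mem _ _ hv0)
      have h5 := h.raise ha v hv
      rcases lt_or_ge a d with h7 | h7
      · exact (le_iSup₂_of_le (f := fun a (_ : a ≤ d) => U A B d th ths a) (a + 1) h7 le_rfl) h5
      · have h8 : A v - th a • v ∈ seg A th (a + 1) d := h5.2
        rw [seg_empty (by omega), Submodule.mem_bot] at h8
        rw [h8]; exact Submodule.zero_mem _
    exact this hw
  have hB : ∀ w ∈ (⨆ a, ⨆ (_ : a ≤ d), U A B d th ths a), B w ∈ (⨆ a, ⨆ (_ : a ≤ d), U A B d th ths a) := by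
    intro w hw
    have : (⨆ a, ⨆ (_ : a ≤ d), U A B d th ths a) ≤
        (⨆ a, ⨆ (_ : a ≤ d), U A B d th ths a).comap B := by
      refine iSup₂_le fun a ha v hv => ?_
      rw [Submodule.mem_comap]
      have hv0 : v ∈ ⨆ a, ⨆ (_ : a ≤ d), U A B d th ths a :=
        (le_iSup₂_of_le (f := fun a (_ : a ≤ d) => U A B d th ths a) a ha le_rfl) hv
      rcases a with _ | a
      · rw [h.B_G0 v hv.1]
        exact Submodule.smul_mem _ _ hv0
      · have e : B v = (B v - ths (a + 1) • v) + ths (a + 1) • v := by abel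
        rw [e]
        refine Submodule.add_mem _ ?_ (Submodule.smul_mem _ _ hv0)
        exact (le_iSup₂_of_le (f := fun a (_ : a ≤ d) => U A B d th ths a) a (by omega) le_rfl)
          (h.lower v hv)
    exact this hw
  rcases h.irr _ hA hB with h1 | h1
  · exfalso
    have h2 : U A B d th ths 0 = ⊥ := by
      rw [eq_bot_iff, ← h1]
      exact le_iSup₂_of_le (f := fun a (_ : a ≤ d) => U A B d th ths a) 0 (by omega) le_rfl
    rw [U, seg_self, h.left.top, inf_top_eq] at h2
    exact h.right.ne 0 (by omega) h2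
  · exact h1

end Pool.Agent.Lib.MP_1e0d46_al
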