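import Pool.Agent.Lib.MP_1e0d46_al.Core

namespace Pool.Agent.Lib.MP_1e0d46_al

open Module Polynomial

variable {K V : Type*} [Field K] [AddCommGroup V] [Module K V]

theorem TDPair.swap {A B : End K V} {d : ℕ} {th ths : ℕ → K} (h : TDPair A B d th ths) :
    TDPair B A d ths th := ⟨h.right, h.left, fun W h1 h2 => h.irr W h2 h1⟩

theorem qc_swap (q : K) (A B : End K V) : qc q A B = - qc q⁻¹ B A := by
  simp only [qc, inv_inv, neg_sub]

theorem eig_neg (T : End K V) (mu : K) : (-T).eigenspace mu = T.eigenspace (-mu) := by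
  ext v
  rw [End.mem_eigenspace_iff, End.mem_eigenspace_iff, LinearMap.neg_apply, neg_smul,
    neg_eq_iff_eq_neg]

/-- `U` of the pair `B, A` with the reversed orders. -/
theorem U_swap {A B : End K V} {d : ℕ} {th ths : ℕ → K} {m : ℕ} (hm : m ≤ d) :
    U B A d (fun k => ths (d - k)) (fun k => th (d - k)) (d - m) = U A B d th ths m := by
  have e : d - (d - m) = m := by omega
  rw [U, U, seg_rev (by omega) (by omega), seg_rev (by omega) (by omega), e, inf_comm]
  simp

variable [FiniteDimensional K V]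

/-- `dim V_m = dim V*_m`. -/
theorem TDPair.finrank_star {A B : End K V} {d : ℕ} {th ths : ℕ → K} (h : TDPair A B d th ths)
    {m : ℕ} (hm : m ≤ d) :
    finrank K (B.eigenspace (ths m)) = finrank K (A.eigenspace (th m)) := by
  have h1 := h.swap.revA.revB.finrank_U (m := d - m) (by omega)
  rw [U_swap hm, h.finrank_U hm] at h1
  have e : d - (d - m) = m := by omega
  rw [e] at h1
  exact h1.symm

/-- `dim V_m = dim V_{d-m}`. -/
theorem TDPair.finrank_symm {A B : End K V} {d : ℕ} {th ths : ℕ → K} (h : TDPair A B d th ths)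
    {m : ℕ} (hm : m ≤ d) :
    finrank K (A.eigenspace (th (d - m))) = finrank K (A.eigenspace (th m)) := by
  rw [← h.finrank_U hm, ← h.finrank_U (m := d - m) (by omega), h.symm hm]

theorem TDPair.blocks' {A B : End K V} {d : ℕ} {th ths : ℕ → K} (h : TDPair A B d th ths)
    (q : K) (hq : (∀ i < d, q⁻¹ * th i ≠ q * th (i + 1)) ∨
      (∀ i < d, q⁻¹ * th (i + 1) ≠ q * th i)) (mu : K) :
    finrank K ((qc q A B).eigenspace mu) ≤ finrank K (A.eigenspace (th (d / 2))) := by
  rcases hq with hq | hq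
  · exact h.blocks q hq mu
  · have h1 := h.revA.blocks q (fun i hi => by
      have := hq (d - (i + 1)) (by omega)
      have e : d - (i + 1) + 1 = d - i := by omega
      rwa [e] at this) mu
    rwa [h.finrank_symm (by omega)] at h1

theorem TDPair.blocks'' {A B : End K V} {d : ℕ} {th ths : ℕ → K} (h : TDPair A B d th ths)
    (q : K) (hq : (∀ i < d, q⁻¹ * th i ≠ q * th (i + 1)) ∨
      (∀ i < d, q⁻¹ * th (i + 1) ≠ q * th i) ∨ (∀ i < d, q⁻¹ * ths i ≠ q * ths (i + 1)) ∨
      (∀ i < d, q⁻¹ * ths (i + 1) ≠ q * ths i)) (mu : K) :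
    finrank K ((qc q A B).eigenspace mu) ≤ finrank K (A.eigenspace (th (d / 2))) := by
  rcases hq with hq | hq | hq | hq
  · exact h.blocks' q (Or.inl hq) mu
  · exact h.blocks' q (Or.inr hq) mu
  · rw [qc_swap, eig_neg, ← h.finrank_star (by omega)]
    refine h.swap.blocks' q⁻¹ (Or.inr fun i hi => ?_) (-mu)
    rw [inv_inv]
    exact (hq i hi).symm
  · rw [qc_swap, eig_neg, ← h.finrank_star (by omega)]
    refine h.swap.blocks' q⁻¹ (Or.inl fun i hi => ?_) (-mu)
    rw [inv_inv]
    exact (hq i hi).symm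

end Pool.Agent.Lib.MP_1e0d46_al
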