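import Pool.Agent.Lib.MP_1e0d46_al.Rec34

namespace Pool.Agent.Lib.MP_1e0d46_al

open Module

variable {K V : Type*} [Field K] [AddCommGroup V] [Module K V]

theorem TDPair.pow_ne {A B : End K V} {d : ℕ} {th ths : ℕ → K} (h : TDPair A B d th ths)
    {q r ga rh : K} (hqr : q * r = 1) (hq4 : q ^ 2 - r ^ 2 ≠ 0) (hq2 : q - r ≠ 0)
    (hr : Rel A B (q ^ 2 + r ^ 2) ga rh) {n : ℕ} (hn : 1 ≤ n) (hnd : n ≤ d) :
    (q ^ 2) ^ n ≠ 1 := by
  intro e
  have e' : (r ^ 2) ^ n = 1 := by
    have : (q ^ 2) ^ n * (r ^ 2) ^ n = 1 := by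
      rw [← mul_pow, ← mul_pow, hqr, one_pow, one_pow]
    rwa [e, one_mul] at this
  set c : K := -ga / (q - r) ^ 2 with hc
  have hc1 : (q - r) ^ 2 * c = -ga := by
    rw [hc]; field_simp
  set a : K := ((th 1 - c) - r ^ 2 * (th 0 - c)) / (q ^ 2 - r ^ 2) with ha
  set b : K := (q ^ 2 * (th 0 - c) - (th 1 - c)) / (q ^ 2 - r ^ 2) with hb
  have ha1 : a * (q ^ 2 - r ^ 2) = (th 1 - c) - r ^ 2 * (th 0 - c) := by
    rw [ha]; field_simp
  have hb1 : b * (q ^ 2 - r ^ 2) = q ^ 2 * (th 0 - c) - (th 1 - c) := by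
    rw [hb]; field_simp
  have key : ∀ k, k + 1 ≤ d → th k = a * (q ^ 2) ^ k + b * (r ^ 2) ^ k + c ∧
      th (k + 1) = a * (q ^ 2) ^ (k + 1) + b * (r ^ 2) ^ (k + 1) + c := by
    intro k
    induction k with
    | zero =>
      intro _
      constructor
      · apply mul_right_cancel₀ hq4
        rw [pow_zero, pow_zero]
        linear_combination -ha1 - hb1
      · apply mul_right_cancel₀ hq4
        rw [zero_add, pow_one, pow_one]
        linear_combination -q ^ 2 * ha1 - r ^ 2 * hb1
    | succ k ih =>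
      intro hk
      obtain ⟨h1, h2⟩ := ih (by omega)
      refine ⟨h2, ?_⟩
      have h3 := h.rec3 hr (i := k) (by omega)
      rw [show k + 1 + 1 = k + 2 from rfl, h3, h2, h1]
      rw [pow_succ, pow_succ, pow_succ, pow_succ]
      linear_combination (a * (q ^ 2) ^ k * (q * r + 1) + b * (r ^ 2) ^ k * (q * r + 1) +
        2 * c) * hqr + hc1
  have h0 : th 0 = a * (q ^ 2) ^ 0 + b * (r ^ 2) ^ 0 + c := (key 0 (by omega)).1
  have hn' : th n = a * (q ^ 2) ^ n + b * (r ^ 2) ^ n + c := by
    obtain ⟨m, rfl⟩ : ∃ m, n = m + 1 := ⟨n - 1, by omega⟩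
    exact (key m hnd).2
  rw [e, e'] at hn'
  have := h.left.inj n hnd 0 (by omega) (by rw [hn', h0]; simp)
  omega

theorem TDPair.exc {A B : End K V} {d : ℕ} {th ths : ℕ → K} (h : TDPair A B d th ths)
    {q r ga rh : K} (hqr : q * r = 1) (hq4 : q ^ 2 - r ^ 2 ≠ 0) (hq2 : q - r ≠ 0)
    (hr : Rel A B (q ^ 2 + r ^ 2) ga rh) :
    ((∃ i0, ∀ i < d, i ≠ i0 → r * th i ≠ q * th (i + 1)) ∨
      (∀ i < d, r * th (i + 1) ≠ q * th i)) ∧
    (ga = 0 → (∀ i < d, r * th i ≠ q * th (i + 1)) ∨ (∀ i < d, r * th (i + 1) ≠ q * th i)) := by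
  have hq : q ≠ 0 := by rintro rfl; simp at hqr
  have hp : ∀ i, i + 1 < d → r * th (i + 1) - q * th (i + 2) =
      q ^ 2 * (r * th i - q * th (i + 1)) - q * ga := by
    intro i hi
    rw [h.rec3 hr hi]
    linear_combination (-(r * th (i + 1)) - q * th i) * hqr
  have hq21 : q ^ 2 - 1 ≠ 0 := by
    intro e
    apply hq2
    have : q * (q - r) = 0 := by linear_combination e - hqr
    exact (mul_eq_zero.1 this).resolve_left hq
  set g : K := q * ga / (q ^ 2 - 1) with hg
  have hg1 : (q ^ 2 - 1) * g = q * ga := by rw [hg]; field_simp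
  have hd : ∀ n i, i + n < d → r * th (i + n) - q * th (i + n + 1) - g =
      (q ^ 2) ^ n * (r * th i - q * th (i + 1) - g) := by
    intro n
    induction n with
    | zero => intro i _; simp
    | succ n ih =>
      intro i hi
      have h1 := ih i (by omega)
      have h2 := hp (i + n) (by omega)
      rw [show i + (n + 1) = i + n + 1 from rfl]
      rw [h2, pow_succ]
      linear_combination q ^ 2 * h1 + hg1
  have hzero : ga = 0 → (∀ i < d, r * th i ≠ q * th (i + 1)) ∨
      (∀ i < d, r * th (i + 1) ≠ q * th i) := by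
    intro hga
    have hg0 : g = 0 := by rw [hg, hga]; simp
    by_cases h0 : r * th 0 - q * th 1 = 0
    · right
      intro i hi e
      have h1 := hd i 0 (by omega)
      simp only [zero_add, hg0, sub_zero, h0, mul_zero] at h1
      have h2 : (q ^ 2 - r ^ 2) * th i = 0 := by
        linear_combination (-q) * e + (-r) * h1 + th (i + 1) * 0
      have h3 : th i = 0 := (mul_eq_zero.1 h2).resolve_left hq4
      rw [h3, mul_zero, zero_sub, neg_eq_zero, mul_eq_zero] at h1
      have h4 := h1.resolve_left hq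
      have := h.left.inj i hi.le (i + 1) hi (by rw [h3, h4])
      omega
    · left
      intro i hi e
      have h1 := hd i 0 (by omega)
      simp only [zero_add, hg0, sub_zero] at h1
      rw [sub_eq_zero.2 e] at h1
      rcases mul_eq_zero.1 h1.symm with h2 | h2
      · exact pow_ne_zero _ (pow_ne_zero _ hq) h2
      · exact h0 h2
  refine ⟨?_, hzero⟩
  by_cases hga : ga = 0
  · rcases hzero hga with h1 | h1
    · exact Or.inl ⟨0, fun i hi _ => h1 i hi⟩
    · exact Or.inr h1
  · left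
    have hg0 : g ≠ 0 := by
      intro e
      rw [e, mul_zero] at hg1
      rcases mul_eq_zero.1 hg1.symm with h1 | h1
      · exact hq h1
      · exact hga h1
    have two : ∀ i j, i < j → j < d → r * th i = q * th (i + 1) →
        r * th j = q * th (j + 1) → False := by
      intro i j hij hj e1 e2
      have h1 := hd (j - i) i (by omega)
      rw [show i + (j - i) = j by omega, sub_eq_zero.2 e1, sub_eq_zero.2 e2] at h1
      have h2 : ((q ^ 2) ^ (j - i) - 1) * g = 0 := by linear_combination h1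
      rcases mul_eq_zero.1 h2 with h3 | h3
      · exact h.pow_ne hqr hq4 hq2 hr (n := j - i) (by omega) (by omega) (sub_eq_zero.1 h3)
      · exact hg0 h3
    by_cases hz : ∃ i0 < d, r * th i0 = q * th (i0 + 1)
    · obtain ⟨i0, hi0, e0⟩ := hz
      refine ⟨i0, fun i hi hne e => ?_⟩
      rcases Nat.lt_or_gt_of_ne hne with h1 | h1
      · exact two i i0 h1 hi0 e e0
      · exact two i0 i h1 hi e0 e
    · push Not at hz
      exact ⟨0, fun i hi _ => hz i hi⟩

end Pool.Agent.Lib.MP_1e0d46_al
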