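import Pool.Agent.Lib.MP_1e0d46_al.Defs

namespace Pool.Agent.Lib.MP_1e0d46_al

open Module Polynomial

variable {K V : Type*} [Field K] [AddCommGroup V] [Module K V]

/-- The kernel of a product of distinct linear factors. -/
theorem ker_prod (B : End K V) (c : ℕ → K) (s : ℕ) (hc : ∀ i < s, ∀ j < s, c i = c j → i = j)
    (W : Submodule K V) (hW : ∀ i < s, B.eigenspace (c i) ≤ W) :
    LinearMap.ker (aeval B (∏ t ∈ Finset.range s, (X - C (c t)))) ≤ W := by
  induction s with
  | zero =>
    intro v hv
    simp at hv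
    rw [hv]; exact W.zero_mem
  | succ s ih =>
    rw [Finset.prod_range_succ]
    have hcop : IsCoprime (∏ t ∈ Finset.range s, (X - C (c t))) (X - C (c s)) := by
      apply IsCoprime.prod_left
      intro i hi
      rw [Finset.mem_range] at hi
      apply isCoprime_X_sub_C_of_isUnit_sub
      rw [isUnit_iff_ne_zero, sub_ne_zero]
      intro e
      have := hc i (by omega) s (by omega) e
      omega
    rw [← Polynomial.sup_ker_aeval_eq_ker_aeval_mul_of_coprime B hcop]
    refine sup_le (ih (fun i hi j hj => hc i (by omega) j (by omega))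
      (fun i hi => hW i (by omega))) ?_
    intro v hv
    apply hW s (by omega)
    rw [End.mem_eigenspace_iff]
    simpa [sub_eq_zero] using hv

theorem TDPair.lowers {A B : End K V} {d : ℕ} {th ths : ℕ → K} (h : TDPair A B d th ths)
    (k s : ℕ) : ∀ v ∈ U A B d th ths (k + s),
      aeval B (∏ t ∈ Finset.range s, (X - C (ths (k + 1 + t)))) v ∈ U A B d th ths k := by
  induction s with
  | zero => intro v hv; simpa using hv
  | succ s ih =>
    intro v hv
    rw [Finset.prod_range_succ, map_mul, Module.End.mul_apply]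
    apply ih
    have := h.lower (a := k + s) v hv
    have e : k + 1 + s = k + s + 1 := by omega
    rw [e]
    simpa using this

theorem TDPair.raises {A B : End K V} {d : ℕ} {th ths : ℕ → K} (h : TDPair A B d th ths)
    (k s : ℕ) (hs : k + s ≤ d + 1) : ∀ v ∈ U A B d th ths k,
      aeval A (∏ t ∈ Finset.range s, (X - C (th (k + t)))) v ∈ U A B d th ths (k + s) := by
  induction s with
  | zero => intro v hv; simpa using hv
  | succ s ih =>
    intro v hv
    rw [Finset.prod_range_succ, mul_comm, map_mul, Module.End.mul_apply]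
    have := h.raise (a := k + s) (by omega) _ (ih (by omega) v hv)
    rw [← Nat.add_assoc]
    simpa using this

/-- `(V*_i + ... + V*_d) ∩ (V_j + ... + V_d) = 0` for `i + j > d`. -/
theorem TDPair.zero' {A B : End K V} {d : ℕ} {th ths : ℕ → K} (h : TDPair A B d th ths)
    {i j : ℕ} (hi : i ≤ d) (hij : d < i + j) : seg B ths i d ⊓ seg A th j d = ⊥ := by
  have h1 := h.revB.zero (a := d - i)
  rw [seg_rev (by omega) (by omega)] at h1
  rw [eq_bot_iff, ← h1]
  exact inf_le_inf (seg_mono (by omega) (by omega)) (seg_mono (by omega) le_rfl)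

/-- `(V*_0 + ... + V*_i) ∩ (V_0 + ... + V_j) = 0` for `i + j < d`. -/
theorem TDPair.zero'' {A B : End K V} {d : ℕ} {th ths : ℕ → K} (h : TDPair A B d th ths)
    {i j : ℕ} (hij : i + j < d) : seg B ths 0 i ⊓ seg A th 0 j = ⊥ := by
  have h1 := h.revA.zero (a := i)
  rw [seg_rev (by omega) (by omega)] at h1
  rw [eq_bot_iff, ← h1]
  exact inf_le_inf le_rfl (seg_mono (by omega) (by omega))

theorem fr_map (f : End K V) (S : Submodule K V) (h : ∀ v ∈ S, f v = 0 → v = 0) :
    finrank K (S.map f) = finrank K S := by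
  have hinj : Function.Injective (f.domRestrict S) := by
    rw [injective_iff_map_eq_zero]
    intro v hv
    ext
    exact h v v.2 hv
  rw [← LinearMap.range_domRestrict, LinearMap.finrank_range_of_inj hinj]

theorem exists_compl [FiniteDimensional K V] (f : End K V) (S : Submodule K V) :
    ∃ C ≤ S, (∀ v ∈ C, f v = 0 → v = 0) ∧ finrank K C = finrank K (S.map f) := by
  obtain ⟨C', hC'⟩ := (LinearMap.ker (f.domRestrict S)).exists_isCompl
  have h1 : ∀ v ∈ C'.map S.subtype, f v = 0 → v = 0 := by
    rintro _ ⟨v, hv, rfl⟩ hf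
    have : v ∈ LinearMap.ker (f.domRestrict S) ⊓ C' := ⟨hf, hv⟩
    rw [hC'.inf_eq_bot, Submodule.mem_bot] at this
    rw [this]; simp
  refine ⟨C'.map S.subtype, Submodule.map_subtype_le S C', h1, ?_⟩
  have h2 := Submodule.finrank_add_eq_of_isCompl hC'
  have h3 := LinearMap.finrank_range_add_finrank_ker (f.domRestrict S)
  rw [LinearMap.range_domRestrict] at h3
  have h4 : finrank K (C'.map S.subtype) = finrank K C' :=
    LinearEquiv.finrank_eq (Submodule.equivMapOfInjective _ S.subtype_injective C').symm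
  omega

variable [FiniteDimensional K V]

theorem TDPair.symm_le {A B : End K V} {d : ℕ} {th ths : ℕ → K} (h : TDPair A B d th ths)
    {k : ℕ} (hk : 2 * k ≤ d) :
    finrank K (U A B d th ths k) ≤ finrank K (U A B d th ths (d - k)) := by
  have e : k + (d - 2 * k) = d - k := by omega
  rw [← fr_map (aeval A (∏ t ∈ Finset.range (d - 2 * k), (X - C (th (k + t)))))
    (U A B d th ths k)]
  · apply Submodule.finrank_mono
    rintro _ ⟨v, hv, rfl⟩
    have := h.raises k (d - 2 * k) (by omega) v hv
    rwa [e] at this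
  · intro v hv h0
    rcases Nat.eq_zero_or_pos (d - 2 * k) with h1 | h1
    · rw [h1] at h0; simpa using h0
    have h2 := ker_prod A (fun t => th (k + t)) (d - 2 * k)
      (fun i hi j hj e => by
        have := h.left.inj (k + i) (by omega) (k + j) (by omega) e
        omega)
      (seg A th 0 (d - k - 1)) (fun i hi => le_seg (k := k + i) (by omega) (by omega)) h0
    have h3 := h.zero'' (i := k) (j := d - k - 1) (by omega)
    have h4 : v ∈ seg B ths 0 k ⊓ seg A th 0 (d - k - 1) := ⟨hv.1, h2⟩
    rwa [h3, Submodule.mem_bot] at h4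

theorem TDPair.lower_inj {A B : End K V} {d : ℕ} {th ths : ℕ → K} (h : TDPair A B d th ths)
    {k : ℕ} (hk : 2 * k ≤ d) : ∀ v ∈ U A B d th ths (d - k),
      aeval B (∏ t ∈ Finset.range (d - 2 * k), (X - C (ths (k + 1 + t)))) v = 0 → v = 0 := by
  intro v hv h0
  rcases Nat.eq_zero_or_pos (d - 2 * k) with h1 | h1
  · rw [h1] at h0; simpa using h0
  have h2 := ker_prod B (fun t => ths (k + 1 + t)) (d - 2 * k)
    (fun i hi j hj e => by
      have := h.right.inj (k + 1 + i) (by omega) (k + 1 + j) (by omega) e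
      omega)
    (seg B ths (k + 1) d) (fun i hi => le_seg (k := k + 1 + i) (by omega) (by omega)) h0
  have h3 := h.zero' (i := k + 1) (j := d - k) (by omega) (by omega)
  have h4 : v ∈ seg B ths (k + 1) d ⊓ seg A th (d - k) d := ⟨h2, hv.2⟩
  rwa [h3, Submodule.mem_bot] at h4

theorem TDPair.symm_ge {A B : End K V} {d : ℕ} {th ths : ℕ → K} (h : TDPair A B d th ths)
    {k : ℕ} (hk : 2 * k ≤ d) :
    (U A B d th ths (d - k)).map
      (aeval B (∏ t ∈ Finset.range (d - 2 * k), (X - C (ths (k + 1 + t))))) =
      U A B d th ths k := by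
  have e : k + (d - 2 * k) = d - k := by omega
  have h1 : (U A B d th ths (d - k)).map
      (aeval B (∏ t ∈ Finset.range (d - 2 * k), (X - C (ths (k + 1 + t))))) ≤
      U A B d th ths k := by
    rintro _ ⟨v, hv, rfl⟩
    refine h.lowers k (d - 2 * k) v ?_
    rw [e]; exact hv
  apply Submodule.eq_of_le_of_finrank_le h1
  rw [fr_map _ _ (h.lower_inj hk)]
  exact h.symm_le hk

theorem TDPair.symm {A B : End K V} {d : ℕ} {th ths : ℕ → K} (h : TDPair A B d th ths)
    {k : ℕ} (hk : k ≤ d) :
    finrank K (U A B d th ths (d - k)) = finrank K (U A B d th ths k) := by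
  have key : ∀ k, 2 * k ≤ d →
      finrank K (U A B d th ths (d - k)) = finrank K (U A B d th ths k) := by
    intro k hk
    rw [← h.symm_ge hk, fr_map _ _ (h.lower_inj hk)]
  rcases le_or_gt (2 * k) d with h1 | h1
  · exact key k h1
  · have := key (d - k) (by omega)
    have e : d - (d - k) = k := by omega
    rw [e] at this
    exact this.symm

/-- Surjectivity of the lowering maps in the lower half. -/
theorem TDPair.low_surj {A B : End K V} {d : ℕ} {th ths : ℕ → K} (h : TDPair A B d th ths)
    {k : ℕ} (hk : 2 * k + 2 ≤ d) :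
    (U A B d th ths (k + 1)).map (B - ths (k + 1) • (1 : End K V)) = U A B d th ths k := by
  apply le_antisymm
  · rintro _ ⟨v, hv, rfl⟩
    simpa using h.lower v hv
  · intro v hv
    rw [← h.symm_ge (k := k) (by omega)] at hv
    obtain ⟨u, hu, rfl⟩ := hv
    obtain ⟨s, hs⟩ : ∃ s, d - 2 * k = s + 1 := ⟨d - 2 * k - 1, by omega⟩
    rw [hs, Finset.prod_range_succ', mul_comm, map_mul, Module.End.mul_apply]
    refine ⟨_, h.lowers (k + 1) s u ?_, ?_⟩
    · have e : k + 1 + s = d - k := by omega
      rw [e]; exact hu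
    · have e : ∀ t, k + 1 + 1 + t = k + 1 + (t + 1) := fun t => by omega
      simp [e]

/-- Injectivity of the lowering maps in the upper half. -/
theorem TDPair.low_inj {A B : End K V} {d : ℕ} {th ths : ℕ → K} (h : TDPair A B d th ths)
    {i : ℕ} (hi : i ≤ d) (hk : d < 2 * i) :
    ∀ v ∈ U A B d th ths i, (B - ths i • (1 : End K V)) v = 0 → v = 0 := by
  intro v hv h0
  have h1 : v ∈ B.eigenspace (ths i) := by
    rw [End.mem_eigenspace_iff]
    simpa [sub_eq_zero] using h0
  have h2 : v ∈ seg B ths i d ⊓ seg A th i d := ⟨le_seg le_rfl hi h1, hv.2⟩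
  rwa [h.zero' hi (by omega), Submodule.mem_bot] at h2

theorem TDPair.rank_low {A B : End K V} {d : ℕ} {th ths : ℕ → K} (h : TDPair A B d th ths)
    {i : ℕ} (hi : i < d) :
    finrank K ((U A B d th ths (i + 1)).map (B - ths (i + 1) • (1 : End K V))) =
      if i < d / 2 then finrank K (U A B d th ths i) else finrank K (U A B d th ths (i + 1)) := by
  split_ifs with h1
  · rw [h.low_surj (by omega)]
  · rw [fr_map _ _ (h.low_inj (by omega) (by omega))]

end Pool.Agent.Lib.MP_1e0d46_al
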