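import Pool.Agent.Lib.MP_1e0d46_al.Main

namespace Pool.Agent.Lib.MP_1e0d46_al

open Module

variable {K V : Type*} [Field K] [AddCommGroup V] [Module K V]

/-- The relation `[A, A² B - be A B A + B A² - ga (A B + B A) - rh B] = 0`. -/
def Rel (A B : End K V) (be ga rh : K) : Prop :=
  A * (A ^ 2 * B - be • (A * B * A) + B * A ^ 2 - ga • (A * B + B * A) - rh • B) =
    (A ^ 2 * B - be • (A * B * A) + B * A ^ 2 - ga • (A * B + B * A) - rh • B) * A

theorem TDPair.adj {A B : End K V} {d : ℕ} {th ths : ℕ → K} (h : TDPair A B d th ths)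
    {be ga rh : K} (hr : Rel A B be ga rh) {i : ℕ} (hi : i < d) :
    th (i + 1) ^ 2 - be * th i * th (i + 1) + th i ^ 2 - ga * (th i + th (i + 1)) - rh = 0 := by
  have h1 : ∃ v ∈ A.eigenspace (th i), B v ∉ seg A th 0 i := by
    by_contra hcon
    push Not at hcon
    have hB : ∀ w ∈ seg A th 0 i, B w ∈ seg A th 0 i := by
      refine seg_map B fun k hk hk' v hv => ?_
      rcases eq_or_lt_of_le hk' with rfl | hlt
      · exact hcon v hv
      · exact seg_mono (by omega) (by omega) (h.left.tri k (by omega) v hv)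
    have h2 := h.left.disj (i := 0) (a := i) (b := i + 1) (by omega)
    rcases h.irr _ seg_A hB with h3 | h3
    · have := le_seg (A := A) (th := th) (i := 0) (j := i) (k := i) (by omega) le_rfl
      rw [h3, le_bot_iff] at this
      exact h.left.ne i hi.le this
    · rw [h3, top_inf_eq] at h2
      have := le_seg (A := A) (th := th) (i := i + 1) (j := d) (k := i + 1) le_rfl hi
      rw [h2, le_bot_iff] at this
      exact h.left.ne (i + 1) hi this
  obtain ⟨v, hv, hBv⟩ := h1
  have h2 : B v ∈ seg A th 0 i ⊔ A.eigenspace (th (i + 1)) := by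
    have h3 : seg A th (i - 1) (min (i + 1) d) ≤
        seg A th 0 i ⊔ A.eigenspace (th (i + 1)) := by
      refine seg_le fun k hk hk' => ?_
      rcases Nat.lt_or_ge i k with h4 | h4
      · obtain rfl : k = i + 1 := by omega
        exact le_sup_right
      · exact le_sup_of_le_left (le_seg (by omega) h4)
    exact h3 (h.left.tri i hi.le v hv)
  obtain ⟨w, hw, z, hz, hwz⟩ := Submodule.mem_sup.1 h2
  have hz0 : z ≠ 0 := by
    rintro rfl
    rw [add_zero] at hwz
    rw [← hwz] at hBv
    exact hBv hw
  rw [End.mem_eigenspace_iff] at hv hz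
  have h5 := congrArg (fun T : End K V => T v) hr
  simp only [Module.End.mul_apply, LinearMap.sub_apply, LinearMap.add_apply,
    LinearMap.smul_apply, pow_two, hv, map_smul, map_sub, map_add] at h5
  rw [← hwz] at h5
  simp only [map_add, hz, map_smul] at h5
  have hAw : A w ∈ seg A th 0 i := seg_A w hw
  have hAAw : A (A w) ∈ seg A th 0 i := seg_A _ hAw
  have hAAAw : A (A (A w)) ∈ seg A th 0 i := seg_A _ hAAw
  set P := th (i + 1) ^ 2 - be * th i * th (i + 1) + th i ^ 2 - ga * (th i + th (i + 1)) - rh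
    with hP
  have h6 : ((th (i + 1) - th i) * P) • z ∈ seg A th 0 i := by
    have e : ((th (i + 1) - th i) * P) • z =
        -(A (A (A w))) + (be * th i + ga + th i) • A (A w) +
          (-(th i ^ 2) + ga * th i + rh - be * th i ^ 2 - ga * th i) • A w +
          (th i ^ 3 - ga * th i ^ 2 - rh * th i) • w := by
      rw [hP]
      rw [← sub_eq_zero] at h5 ⊢
      rw [← h5]
      module
    rw [e]
    exact Submodule.add_mem _ (Submodule.add_mem _ (Submodule.add_mem _ (Submodule.neg_mem _ hAAAw)
      (Submodule.smul_mem _ _ hAAw)) (Submodule.smul_mem _ _ hAw)) (Submodule.smul_mem _ _ hw)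
  have h7 : ((th (i + 1) - th i) * P) • z ∈ seg A th (i + 1) d :=
    Submodule.smul_mem _ _ (le_seg le_rfl hi (by rw [End.mem_eigenspace_iff]; exact hz))
  have h8 := h.left.disj (i := 0) (a := i) (b := i + 1) (by omega)
  have h9 : ((th (i + 1) - th i) * P) • z ∈ seg A th 0 i ⊓ seg A th (i + 1) d := ⟨h6, h7⟩
  rw [h8, Submodule.mem_bot] at h9
  rcases smul_eq_zero.1 h9 with h10 | h10
  · rcases mul_eq_zero.1 h10 with h11 | h11
    · exfalso
      have := h.left.inj (i + 1) hi i hi.le (sub_eq_zero.1 h11)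
      omega
    · exact h11
  · exact absurd h10 hz0

theorem TDPair.rec3 {A B : End K V} {d : ℕ} {th ths : ℕ → K} (h : TDPair A B d th ths)
    {be ga rh : K} (hr : Rel A B be ga rh) {i : ℕ} (hi : i + 1 < d) :
    th (i + 2) = be * th (i + 1) + ga - th i := by
  have h1 := h.adj hr (i := i) (by omega)
  have h2 := h.adj hr (i := i + 1) hi
  have h3 : (th (i + 2) - th i) * (th (i + 2) - (be * th (i + 1) + ga - th i)) = 0 := by
    linear_combination h2 - h1
  rcases mul_eq_zero.1 h3 with h4 | h4
  · exfalso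
    have := h.left.inj (i + 2) (by omega) i (by omega) (sub_eq_zero.1 h4)
    omega
  · exact sub_eq_zero.1 h4

end Pool.Agent.Lib.MP_1e0d46_al
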