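import Mathlib

namespace Pool.Agent.Lib.MP_1e0d46_al.TD

open Module

variable {K V : Type*} [Field K] [AddCommGroup V] [Module K V]

/-- The sum of the eigenspaces of `A` for the eigenvalues `θ j` with `j ∈ s`. -/
def ESum (A : End K V) (θ : ℕ → K) (s : Set ℕ) : Submodule K V :=
  ⨆ j ∈ s, A.eigenspace (θ j)

/-- `(A, B)` is a tridiagonal pair of diameter `d`; `θ 0, …, θ d` are the eigenvalues of `A` and
`φ 0, …, φ d` those of `B`, in standard orderings. -/
structure TDPair (A B : End K V) (d : ℕ) (θ φ : ℕ → K) : Prop where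
  injA : ∀ i ≤ d, ∀ j ≤ d, θ i = θ j → i = j
  injB : ∀ i ≤ d, ∀ j ≤ d, φ i = φ j → i = j
  neA : ∀ i ≤ d, A.eigenspace (θ i) ≠ ⊥
  neB : ∀ i ≤ d, B.eigenspace (φ i) ≠ ⊥
  topA : ESum A θ {j | j ≤ d} = ⊤
  topB : ESum B φ {j | j ≤ d} = ⊤
  triA : ∀ i ≤ d, ∀ v ∈ A.eigenspace (θ i), B v ∈ ESum A θ {j | j ≤ d ∧ j ≤ i + 1 ∧ i ≤ j + 1}
  triB : ∀ i ≤ d, ∀ v ∈ B.eigenspace (φ i), A v ∈ ESum B φ {j | j ≤ d ∧ j ≤ i + 1 ∧ i ≤ j + 1}
  irr : ∀ W : Submodule K V, (∀ w ∈ W, A w ∈ W) → (∀ w ∈ W, B w ∈ W) → W = ⊥ ∨ W = ⊤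

theorem esum_mono {A : End K V} {θ : ℕ → K} {s t : Set ℕ} (h : s ⊆ t) :
    ESum A θ s ≤ ESum A θ t := biSup_mono (fun _ hj => h hj)

theorem mem_esum {A : End K V} {θ : ℕ → K} {s : Set ℕ} {j : ℕ} (hj : j ∈ s) {v : V}
    (hv : v ∈ A.eigenspace (θ j)) : v ∈ ESum A θ s :=
  (le_biSup (fun j => A.eigenspace (θ j)) hj) hv

/-- induction principle -/
theorem esum_le {A : End K V} {θ : ℕ → K} {s : Set ℕ} {W : Submodule K V}
    (h : ∀ j ∈ s, ∀ v ∈ A.eigenspace (θ j), v ∈ W) : ESum A θ s ≤ W :=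
  iSup₂_le (fun j hj v hv => h j hj v hv)

/-- linear map sending generators into `W` sends the sum into `W` -/
theorem esum_map {A : End K V} {θ : ℕ → K} {s : Set ℕ} {W : Submodule K V} (f : End K V)
    (h : ∀ j ∈ s, ∀ v ∈ A.eigenspace (θ j), f v ∈ W) {v : V} (hv : v ∈ ESum A θ s) : f v ∈ W := by
  have h1 : ESum A θ s ≤ W.comap f := esum_le (fun j hj v hv => h j hj v hv)
  exact h1 hv

theorem sub_esum {A : End K V} {θ : ℕ → K} {s t : Set ℕ} (m : ℕ)
    (hst : ∀ j ∈ s, j = m ∨ j ∈ t) {v : V} (hv : v ∈ ESum A θ s) :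
    (A - θ m • (1 : End K V)) v ∈ ESum A θ t := by
  refine esum_map _ ?_ hv
  intro j hj w hw
  have hw' : A w = θ j • w := End.mem_eigenspace_iff.mp hw
  have e : (A - θ m • (1 : End K V)) w = (θ j - θ m) • w := by
    simp [hw', sub_smul]
  rw [e]
  rcases hst j hj with rfl | hj
  · simp
  · exact Submodule.smul_mem _ _ (mem_esum hj hw)

section
variable {A B : End K V} {d : ℕ} {θ φ : ℕ → K}

theorem tri_esum (h : TDPair A B d θ φ) {s t : Set ℕ} (hs : ∀ j ∈ s, j ≤ d)
    (hst : ∀ i ∈ s, ∀ j ≤ d, j ≤ i + 1 → i ≤ j + 1 → j ∈ t) {v : V} (hv : v ∈ ESum A θ s) :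
    B v ∈ ESum A θ t := by
  refine esum_map _ ?_ hv
  intro j hj w hw
  exact esum_mono (fun k hk => hst j hj k hk.1 hk.2.1 hk.2.2) (h.triA j (hs j hj) w hw)

theorem swap (h : TDPair A B d θ φ) : TDPair B A d φ θ :=
  ⟨h.injB, h.injA, h.neB, h.neA, h.topB, h.topA, h.triB, h.triA,
    fun W h1 h2 => h.irr W h2 h1⟩

/-- tail -/
def Tl (A : End K V) (d : ℕ) (θ : ℕ → K) (j : ℕ) : Submodule K V := ESum A θ {k | j ≤ k ∧ k ≤ d}

/-- head -/
def Hd (A : End K V) (d : ℕ) (θ : ℕ → K) (j : ℕ) : Submodule K V := ESum A θ {k | k < j ∧ k ≤ d}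

theorem Tl_bot {j : ℕ} (hj : d < j) : Tl A d θ j = ⊥ := by
  refine eq_bot_iff.mpr (esum_le ?_)
  intro k hk
  have := hk.1.trans hk.2
  omega

theorem Hd_bot : Hd A d θ 0 = ⊥ := by
  refine eq_bot_iff.mpr (esum_le ?_)
  intro k hk
  exact absurd hk.1 (Nat.not_lt_zero _)

theorem Tl_anti {i j : ℕ} (hij : i ≤ j) : Tl A d θ j ≤ Tl A d θ i :=
  esum_mono (fun _ hk => ⟨hij.trans hk.1, hk.2⟩)

theorem Tl_sub (j : ℕ) {v : V} (hv : v ∈ Tl A d θ j) :
    (A - θ j • (1 : End K V)) v ∈ Tl A d θ (j + 1) :=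
  sub_esum j (fun k hk => by
    rcases Nat.lt_or_ge j k with h | h
    · exact Or.inr ⟨h, hk.2⟩
    · exact Or.inl (le_antisymm h hk.1)) hv

theorem Hd_sub (j : ℕ) {v : V} (hv : v ∈ Hd A d θ (j + 1)) :
    (A - θ j • (1 : End K V)) v ∈ Hd A d θ j :=
  sub_esum j (fun k hk => by
    rcases Nat.lt_or_ge k j with h | h
    · exact Or.inr ⟨h, hk.2⟩
    · exact Or.inl (le_antisymm (Nat.lt_succ_iff.mp hk.1) h)) hv

theorem Tl_tri (h : TDPair A B d θ φ) {i j : ℕ} (hij : i ≤ j + 1) {v : V}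
    (hv : v ∈ Tl A d θ (j + 1)) (hi : i ≤ j) : B v ∈ Tl A d θ i :=
  tri_esum h (s := {k | j + 1 ≤ k ∧ k ≤ d}) (t := {k | i ≤ k ∧ k ≤ d}) (fun k hk => hk.2)
    (fun k hk l hl _ h2 => ⟨by have := hk.1; omega, hl⟩) hv

theorem Hd_tri (h : TDPair A B d θ φ) {j : ℕ} {v : V}
    (hv : v ∈ Hd A d θ j) : B v ∈ Hd A d θ (j + 1) :=
  tri_esum h (s := {k | k < j ∧ k ≤ d}) (t := {k | k < j + 1 ∧ k ≤ d}) (fun k hk => hk.2)
    (fun k hk l hl h1 _ => ⟨by have := hk.1; omega, hl⟩) hv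

/-- `V_1 + … + V_d` is not the whole space. -/
theorem Tl_one_ne (h : TDPair A B d θ φ) : Tl A d θ 1 ≠ ⊤ := by
  intro htop
  have hind := A.eigenspaces_iSupIndep
  have hdis := hind (θ 0)
  have hle : Tl A d θ 1 ≤ ⨆ j, ⨆ (_ : j ≠ θ 0), A.eigenspace j := by
    refine esum_le ?_
    intro k hk v hv
    have hne : θ k ≠ θ 0 := fun e => by
      have := h.injA k hk.2 0 (Nat.zero_le _) e
      have := hk.1
      omega
    exact (le_iSup₂_of_le (f := fun j (_ : j ≠ θ 0) => A.eigenspace j) (θ k) hne le_rfl) hv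
  rw [htop, top_le_iff] at hle
  rw [hle, disjoint_top] at hdis
  exact h.neA 0 (Nat.zero_le _) hdis

theorem eq_bot_of_invariant (h : TDPair A B d θ φ) (W : Submodule K V)
    (h1 : ∀ w ∈ W, A w ∈ W) (h2 : ∀ w ∈ W, B w ∈ W) (h3 : W ≤ Tl A d θ 1) : W = ⊥ := by
  rcases h.irr W h1 h2 with h4 | h4
  · exact h4
  · exact absurd (top_le_iff.mp (h4 ▸ h3)) (Tl_one_ne h)

/-- head of `B` and tail of `A` -/
theorem Hd_inf_Tl (h : TDPair A B d θ φ) {i j : ℕ} (hij : i ≤ j) :
    Hd B d φ i ⊓ Tl A d θ j = ⊥ := by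
  rcases Nat.eq_zero_or_pos i with rfl | hi
  · rw [Hd_bot, bot_inf_eq]
  obtain ⟨i, rfl⟩ : ∃ i', i = i' + 1 := ⟨i - 1, by omega⟩
  obtain ⟨r, rfl⟩ : ∃ r, j = i + (r + 1) := ⟨j - i - 1, by omega⟩
  have hW : (⨆ n, Hd B d φ (n + 1) ⊓ Tl A d θ (n + (r + 1))) = ⊥ := by
    apply eq_bot_of_invariant h
    · intro w hw
      have hle : (⨆ n, Hd B d φ (n + 1) ⊓ Tl A d θ (n + (r + 1))) ≤
          (⨆ n, Hd B d φ (n + 1) ⊓ Tl A d θ (n + (r + 1))).comap A := by
        refine iSup_le ?_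
        intro n u hu
        have e : A u = (A - θ (n + (r + 1)) • (1 : End K V)) u + θ (n + (r + 1)) • u := by simp
        rw [Submodule.mem_comap]
        rw [e]
        refine Submodule.add_mem _ ?_ (Submodule.smul_mem _ _
          ((le_iSup (fun n => Hd B d φ (n + 1) ⊓ Tl A d θ (n + (r + 1))) n) hu))
        refine (le_iSup (fun n => Hd B d φ (n + 1) ⊓ Tl A d θ (n + (r + 1))) (n + 1)) ⟨?_, ?_⟩
        · have e2 : (A - θ (n + (r + 1)) • (1 : End K V)) u = A u - θ (n + (r + 1)) • u := by simp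
          rw [e2]
          refine Submodule.sub_mem _ (Hd_tri (swap h) hu.1) (Submodule.smul_mem _ _ ?_)
          exact esum_mono (s := {k | k < n + 1 ∧ k ≤ d}) (t := {k | k < n + 1 + 1 ∧ k ≤ d})
            (fun k hk => ⟨Nat.lt_succ_of_lt hk.1, hk.2⟩) hu.1
        · have := Tl_sub (n + (r + 1)) hu.2
          have e3 : n + 1 + (r + 1) = n + (r + 1) + 1 := by omega
          rw [e3]
          exact this
      exact hle hw
    · intro w hw
      have hle : (⨆ n, Hd B d φ (n + 1) ⊓ Tl A d θ (n + (r + 1))) ≤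
          (⨆ n, Hd B d φ (n + 1) ⊓ Tl A d θ (n + (r + 1))).comap B := by
        refine iSup_le ?_
        intro n u hu
        have e : B u = (B - φ n • (1 : End K V)) u + φ n • u := by simp
        rw [Submodule.mem_comap]
        rw [e]
        refine Submodule.add_mem _ ?_ (Submodule.smul_mem _ _
          ((le_iSup (fun n => Hd B d φ (n + 1) ⊓ Tl A d θ (n + (r + 1))) n) hu))
        have h0 := Hd_sub n hu.1
        rcases Nat.eq_zero_or_pos n with rfl | hn
        · rw [Hd_bot, Submodule.mem_bot] at h0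
          rw [h0]
          exact Submodule.zero_mem _
        · obtain ⟨n, rfl⟩ : ∃ n', n = n' + 1 := ⟨n - 1, by omega⟩
          refine (le_iSup (fun n => Hd B d φ (n + 1) ⊓ Tl A d θ (n + (r + 1))) n) ⟨h0, ?_⟩
          have e2 : (B - φ (n + 1) • (1 : End K V)) u = B u - φ (n + 1) • u := by simp
          rw [e2]
          have hu2 : u ∈ Tl A d θ (n + (r + 1) + 1) := by
            have e3 : n + 1 + (r + 1) = n + (r + 1) + 1 := by omega
            rw [← e3]
            exact hu.2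
          exact Submodule.sub_mem _ (Tl_tri h (Nat.le_succ _) hu2 le_rfl)
            (Submodule.smul_mem _ _ (Tl_anti (Nat.le_succ _) hu2))
      exact hle hw
    · refine iSup_le ?_
      intro n
      exact inf_le_right.trans (Tl_anti (by omega))
  exact eq_bot_iff.mpr ((le_iSup (fun n => Hd B d φ (n + 1) ⊓ Tl A d θ (n + (r + 1))) i).trans
    hW.le)

/-- tail of `B` and tail of `A` -/
theorem Tl_inf_Tl (h : TDPair A B d θ φ) {i j : ℕ} (hij : d < i + j) :
    Tl B d φ i ⊓ Tl A d θ j = ⊥ := by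
  have hW : (⨆ n, Tl B d φ n ⊓ Tl A d θ (i + j - n)) = ⊥ := by
    apply eq_bot_of_invariant h
    · intro w hw
      have hle : (⨆ n, Tl B d φ n ⊓ Tl A d θ (i + j - n)) ≤
          (⨆ n, Tl B d φ n ⊓ Tl A d θ (i + j - n)).comap A := by
        refine iSup_le ?_
        intro n u hu
        rw [Submodule.mem_comap]
        rcases Nat.eq_zero_or_pos n with rfl | hn
        · have h0 := (Submodule.mem_inf.mp hu).2
          rw [Nat.sub_zero, Tl_bot (by omega), Submodule.mem_bot] at h0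
          rw [h0, map_zero]
          exact Submodule.zero_mem _
        rcases Nat.lt_or_ge d n with hdn | hdn
        · have h0 := (Submodule.mem_inf.mp hu).1
          rw [Tl_bot hdn, Submodule.mem_bot] at h0
          rw [h0, map_zero]
          exact Submodule.zero_mem _
        obtain ⟨n, rfl⟩ : ∃ n', n = n' + 1 := ⟨n - 1, by omega⟩
        have e : A u = (A - θ (i + j - (n + 1)) • (1 : End K V)) u + θ (i + j - (n + 1)) • u := by
          simp
        rw [e]
        refine Submodule.add_mem _ ?_ (Submodule.smul_mem _ _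
          ((le_iSup (fun n => Tl B d φ n ⊓ Tl A d θ (i + j - n)) (n + 1)) hu))
        refine (le_iSup (fun n => Tl B d φ n ⊓ Tl A d θ (i + j - n)) n) ⟨?_, ?_⟩
        · have e2 : (A - θ (i + j - (n + 1)) • (1 : End K V)) u =
              A u - θ (i + j - (n + 1)) • u := by simp
          rw [e2]
          exact Submodule.sub_mem _ (Tl_tri (swap h) (Nat.le_succ _) hu.1 le_rfl)
            (Submodule.smul_mem _ _ (Tl_anti (Nat.le_succ _) hu.1))
        · have := Tl_sub (i + j - (n + 1)) hu.2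
          have e3 : i + j - n = i + j - (n + 1) + 1 := by omega
          rw [e3]
          exact this
      exact hle hw
    · intro w hw
      have hle : (⨆ n, Tl B d φ n ⊓ Tl A d θ (i + j - n)) ≤
          (⨆ n, Tl B d φ n ⊓ Tl A d θ (i + j - n)).comap B := by
        refine iSup_le ?_
        intro n u hu
        rw [Submodule.mem_comap]
        rcases Nat.lt_or_ge d n with hdn | hdn
        · have h0 := (Submodule.mem_inf.mp hu).1
          rw [Tl_bot hdn, Submodule.mem_bot] at h0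
          rw [h0, map_zero]
          exact Submodule.zero_mem _
        have e : B u = (B - φ n • (1 : End K V)) u + φ n • u := by simp
        rw [e]
        refine Submodule.add_mem _ ?_ (Submodule.smul_mem _ _
          ((le_iSup (fun n => Tl B d φ n ⊓ Tl A d θ (i + j - n)) n) hu))
        refine (le_iSup (fun n => Tl B d φ n ⊓ Tl A d θ (i + j - n)) (n + 1))
          ⟨Tl_sub n hu.1, ?_⟩
        have e2 : (B - φ n • (1 : End K V)) u = B u - φ n • u := by simp
        rw [e2]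
        have hu2 : u ∈ Tl A d θ (i + j - (n + 1) + 1) := by
          have e3 : i + j - n = i + j - (n + 1) + 1 := by omega
          rw [← e3]
          exact hu.2
        exact Submodule.sub_mem _ (Tl_tri h (Nat.le_succ _) hu2 le_rfl)
          (Submodule.smul_mem _ _ (Tl_anti (Nat.le_succ _) hu2))
      exact hle hw
    · refine iSup_le ?_
      intro n
      rcases Nat.lt_or_ge d n with hdn | hdn
      · rw [Tl_bot hdn, bot_inf_eq]
        exact bot_le
      · exact inf_le_right.trans (Tl_anti (by omega))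
  have := (le_iSup (fun n => Tl B d φ n ⊓ Tl A d θ (i + j - n)) i).trans hW.le
  have e : i + j - i = j := by omega
  rw [e] at this
  exact eq_bot_iff.mpr this

end

end Pool.Agent.Lib.MP_1e0d46_al.TD
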